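import Pool.Agent.T2H42.PJ.Stm

set_option autoImplicit false

open MeasureTheory Finset
open scoped Nat ComplexOrder

namespace Pool.Agent.T2H42.PJ

namespace ARI

lemma amgm (k : ℕ) (m x : ℝ) (hm : 0 ≤ m) (hx : 0 ≤ x) :
    ((k : ℝ) + 1) ^ (k + 1) * (m ^ k * x) ≤ ((k : ℝ) * m + x) ^ (k + 1) := by
  rcases eq_or_lt_of_le hm with h0 | hpos
  · rw [← h0]
    rcases Nat.eq_zero_or_pos k with hk | hk
    · subst hk; simp
    · rw [zero_pow hk.ne']
      simp only [zero_mul, mul_zero, zero_add]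
      positivity
  · set y := ((k : ℝ) * m + x) / (k + 1) with hy
    have hk1 : (0 : ℝ) < (k : ℝ) + 1 := by positivity
    have hy0 : 0 ≤ y := by positivity
    have hb := one_add_mul_le_pow (a := y / m - 1) (by
      have : 0 ≤ y / m := by positivity
      linarith) (k + 1)
    have e1 : (1 + (y / m - 1)) ^ (k + 1) = y ^ (k + 1) / m ^ (k + 1) := by
      rw [← div_pow]; congr 1; ring
    rw [e1, le_div_iff₀ (by positivity)] at hb
    have hx' : x = (k + 1) * y - k * m := by
      rw [hy]; field_simp; ring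
    have e2 : (1 + ((k + 1 : ℕ) : ℝ) * (y / m - 1)) * m ^ (k + 1) = m ^ k * x := by
      rw [hx', pow_succ]
      push_cast
      field_simp
      ring
    rw [e2] at hb
    have e3 : ((k : ℝ) * m + x) ^ (k + 1) = ((k : ℝ) + 1) ^ (k + 1) * y ^ (k + 1) := by
      rw [← mul_pow, hy]
      congr 1
      field_simp
    rw [e3]
    exact mul_le_mul_of_nonneg_left hb (by positivity)

lemma amgmN (k m x : ℕ) : (k + 1) ^ (k + 1) * (m ^ k * x) ≤ (k * m + x) ^ (k + 1) := by
  have := amgm k m x (by positivity) (by positivity)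
  exact_mod_cast this

lemma step (r m k : ℕ) (h : r.ascFactorial m ≤ m ^ m) :
    (k + 1) ^ m * r.ascFactorial m ≤ ∏ i ∈ range m, (k * m + (r + i)) := by
  have h1 : ((k + 1) ^ m * r.ascFactorial m) ^ (k + 1) ≤
      (∏ i ∈ range m, (k * m + (r + i))) ^ (k + 1) := by
    calc ((k + 1) ^ m * r.ascFactorial m) ^ (k + 1)
        = ((k + 1) ^ (k + 1)) ^ m * ((r.ascFactorial m) ^ k * r.ascFactorial m) := by
          rw [mul_pow, ← pow_mul, ← pow_mul, mul_comm m (k + 1), pow_succ]
      _ ≤ ((k + 1) ^ (k + 1)) ^ m * ((m ^ m) ^ k * r.ascFactorial m) := by gcongr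
      _ = ∏ i ∈ range m, ((k + 1) ^ (k + 1) * (m ^ k * (r + i))) := by
          rw [Finset.prod_mul_distrib, Finset.prod_mul_distrib, Finset.prod_const, Finset.prod_const,
            card_range, ← Nat.ascFactorial_eq_prod_range, ← pow_mul, ← pow_mul, mul_comm m k]
          ring
      _ ≤ ∏ i ∈ range m, (k * m + (r + i)) ^ (k + 1) :=
          Finset.prod_le_prod' fun i _ => amgmN k m (r + i)
      _ = (∏ i ∈ range m, (k * m + (r + i))) ^ (k + 1) := Finset.prod_pow _ _ _
  exact (Nat.pow_le_pow_iff_left (by omega)).1 h1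

lemma asc_add (r a m : ℕ) :
    r.ascFactorial (a + m) = r.ascFactorial a * ∏ i ∈ range m, (a + (r + i)) := by
  rw [Nat.ascFactorial_eq_prod_range, Nat.ascFactorial_eq_prod_range, Finset.prod_range_add]
  congr 1
  refine Finset.prod_congr rfl fun i _ => ?_
  ring

lemma main (r m : ℕ) (h : r.ascFactorial m ≤ m ^ m) (k : ℕ) :
    (k + 1)! ^ m * r.ascFactorial m ^ (k + 1) ≤ r.ascFactorial ((k + 1) * m) := by
  induction k with
  | zero => simp
  | succ k ih =>
    have e1 : (k + 1 + 1) * m = (k + 1) * m + m := by ring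
    rw [e1, asc_add, Nat.factorial_succ, mul_pow, pow_succ (r.ascFactorial m)]
    have h1 := step r m (k + 1) h
    calc (k + 1 + 1) ^ m * (k + 1)! ^ m * (r.ascFactorial m ^ (k + 1) * r.ascFactorial m)
        = ((k + 1)! ^ m * r.ascFactorial m ^ (k + 1)) * ((k + 1 + 1) ^ m * r.ascFactorial m) := by
          ring
      _ ≤ r.ascFactorial ((k + 1) * m) * ∏ i ∈ range m, ((k + 1) * m + (r + i)) :=
          Nat.mul_le_mul ih h1

lemma fac (r a : ℕ) (hr : 1 ≤ r) : (a + r - 1)! = (r - 1)! * r.ascFactorial a := by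
  obtain ⟨q, rfl⟩ : ∃ q, r = q + 1 := ⟨r - 1, by omega⟩
  rw [Nat.add_sub_cancel, Nat.factorial_mul_ascFactorial]
  congr 1
  omega

lemma second (r m : ℕ) (h : 2 * r ≤ m + 1) : r.ascFactorial m ≤ m ^ m := by
  have h1 : r.ascFactorial m ^ 2 ≤ (m ^ m) ^ 2 := by
    calc r.ascFactorial m ^ 2
        = (∏ i ∈ range m, (r + i)) * ∏ i ∈ range m, (r + (m - 1 - i)) := by
          rw [Finset.prod_range_reflect (fun i => r + i) m, Nat.ascFactorial_eq_prod_range, sq]
      _ = ∏ i ∈ range m, ((r + i) * (r + (m - 1 - i))) := Finset.prod_mul_distrib.symm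
      _ ≤ ∏ i ∈ range m, m ^ 2 := by
          refine Finset.prod_le_prod' fun i hi => ?_
          rw [Finset.mem_range] at hi
          obtain ⟨j, hj⟩ : ∃ j, m - 1 - i = j := ⟨_, rfl⟩
          rw [hj]
          have h2 : i + j + 1 = m := by omega
          have h3 : (r + i) + (r + j) ≤ 2 * m := by omega
          nlinarith [sq_nonneg ((r + i : ℤ) - (r + j : ℤ)), mul_self_nonneg ((i : ℤ) - j),
            Nat.mul_le_mul h3 h3, sq_nonneg (((r + i : ℕ) : ℤ) - ((r + j : ℕ) : ℤ)),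
            four_mul_le_sq_add (r + i) (r + j)]
      _ = (m ^ m) ^ 2 := by rw [Finset.prod_const, card_range, ← pow_mul, ← pow_mul, mul_comm]
  exact (Nat.pow_le_pow_iff_left (by norm_num)).1 h1

end ARI

open ARI in
theorem pARI : S_ARI := by
  refine ⟨fun r m k hr hk h => ?_, fun r m _ h => second r m h⟩
  obtain ⟨q, rfl⟩ : ∃ q, k = q + 1 := ⟨k - 1, by omega⟩
  rw [fac r m hr, fac r ((q + 1) * m) hr, Nat.add_sub_cancel]
  calc (q + 1)! ^ m * ((r - 1)! * r.ascFactorial m) ^ (q + 1)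
      = (r - 1)! ^ (q + 1) * ((q + 1)! ^ m * r.ascFactorial m ^ (q + 1)) := by
        rw [mul_pow]; ring
    _ ≤ (r - 1)! ^ (q + 1) * r.ascFactorial ((q + 1) * m) :=
        Nat.mul_le_mul_left _ (main r m h q)
    _ = (r - 1)! * r.ascFactorial ((q + 1) * m) * (r - 1)! ^ q := by ring

end Pool.Agent.T2H42.PJ
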