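import Pool.Agent.T2H42.PJ.Stm

/-!
The arithmetic of project PJ: a simple condition on the sizes and the ranks which implies `cond`.
-/

set_option autoImplicit false

open MeasureTheory Finset
open scoped Nat ComplexOrder

namespace Pool.Agent.T2H42.PJ

/-- if `e (n + 2r - 1)(m + 2s - 1) ≤ 4nm` then `cond n m r s` -/
def S_UNI : Prop := ∀ n m r s : ℕ, 1 ≤ n → 1 ≤ m → 1 ≤ r → 1 ≤ s →
  Real.exp 1 * (((n : ℝ) + 2 * r - 1) * ((m : ℝ) + 2 * s - 1)) ≤ 4 * n * m → cond n m r s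

namespace UNI

lemma asc_le (r n : ℕ) (hr : 1 ≤ r) : (r.ascFactorial n : ℝ) ≤ (((n : ℝ) + 2 * r - 1) / 2) ^ n := by
  rcases Nat.eq_zero_or_pos n with h0 | hn
  · subst h0
    simp
  have hr' : (1 : ℝ) ≤ r := by exact_mod_cast hr
  have hn' : (1 : ℝ) ≤ n := by exact_mod_cast hn
  rw [Nat.ascFactorial_eq_prod_range]
  push_cast
  have hc : (0 : ℝ) ≤ ((n : ℝ) + 2 * r - 1) / 2 := by linarith
  have hp : (0 : ℝ) ≤ ∏ i ∈ range n, ((r : ℝ) + i) := prod_nonneg fun i _ => by positivity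
  refine le_of_sq_le_sq ?_ (pow_nonneg hc n)
  have hrefl : ∏ i ∈ range n, ((r : ℝ) + i) = ∏ i ∈ range n, ((r : ℝ) + ((n - 1 - i : ℕ) : ℝ)) := by
    rw [← Finset.prod_range_reflect (fun i : ℕ => (r : ℝ) + (i : ℝ)) n]
  calc (∏ i ∈ range n, ((r : ℝ) + i)) ^ 2
      = (∏ i ∈ range n, ((r : ℝ) + i)) * (∏ i ∈ range n, ((r : ℝ) + ((n - 1 - i : ℕ) : ℝ))) := by
        rw [sq]
        nth_rw 2 [hrefl]
    _ = ∏ i ∈ range n, (((r : ℝ) + i) * ((r : ℝ) + ((n - 1 - i : ℕ) : ℝ))) := by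
        rw [Finset.prod_mul_distrib]
    _ ≤ ∏ _i ∈ range n, (((n : ℝ) + 2 * r - 1) / 2) ^ 2 := by
        refine Finset.prod_le_prod (fun i _ => by positivity) ?_
        intro i hi
        have hi' : i < n := Finset.mem_range.1 hi
        have e : ((n - 1 - i : ℕ) : ℝ) = (n : ℝ) - 1 - i := by
          rw [Nat.cast_sub (by omega), Nat.cast_sub (by omega)]
          simp
        rw [e]
        nlinarith [sq_nonneg ((r : ℝ) + i - (r + (n - 1 - i)))]
    _ = ((((n : ℝ) + 2 * r - 1) / 2) ^ n) ^ 2 := by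
        rw [Finset.prod_const, Finset.card_range, ← pow_mul, ← pow_mul, Nat.mul_comm 2 n]

lemma fact_ge (N : ℕ) : ((N : ℝ) / Real.exp 1) ^ N ≤ (N ! : ℝ) := by
  have h := Real.pow_div_factorial_le_exp (N : ℝ) (by positivity) N
  have hf : (0 : ℝ) < (N ! : ℝ) := by exact_mod_cast Nat.factorial_pos N
  rw [div_le_iff₀ hf] at h
  rw [div_pow, div_le_iff₀ (by positivity), ← Real.exp_nat_mul, mul_one]
  linarith [mul_comm (Real.exp (N : ℝ)) (N ! : ℝ)]

lemma asc_split (r n : ℕ) (hr : 1 ≤ r) : (n + r - 1)! = (r - 1)! * r.ascFactorial n := by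
  obtain ⟨q, rfl⟩ : ∃ q, r = q + 1 := ⟨r - 1, by omega⟩
  have := Nat.factorial_mul_ascFactorial q n
  rw [show n + (q + 1) - 1 = q + n by omega, show q + 1 - 1 = q by omega, this]

lemma fact_le_asc (r N : ℕ) (hr : 1 ≤ r) : N ! ≤ r.ascFactorial N := by
  rw [← Nat.one_ascFactorial N]
  rw [Nat.ascFactorial_eq_prod_range, Nat.ascFactorial_eq_prod_range]
  exact Finset.prod_le_prod' fun i _ => by omega

end UNI

theorem pUNI : S_UNI := by
  intro n m r s hn hm hr hs h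
  have hn' : (1 : ℝ) ≤ n := by exact_mod_cast hn
  have hm' : (1 : ℝ) ≤ m := by exact_mod_cast hm
  have hr' : (1 : ℝ) ≤ r := by exact_mod_cast hr
  have hs' : (1 : ℝ) ≤ s := by exact_mod_cast hs
  have key : r.ascFactorial n ^ m * s.ascFactorial m ^ n ≤ (n * m)! := by
    have h1 := UNI.asc_le r n hr
    have h2 := UNI.asc_le s m hs
    have h3 := UNI.fact_ge (n * m)
    have e1 : (0 : ℝ) ≤ ((n : ℝ) + 2 * r - 1) / 2 := by linarith
    have e2 : (0 : ℝ) ≤ ((m : ℝ) + 2 * s - 1) / 2 := by linarith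
    have e3 : (0 : ℝ) ≤ (((n : ℝ) + 2 * r - 1) / 2) ^ n := pow_nonneg e1 n
    have e4 : (0 : ℝ) ≤ (((m : ℝ) + 2 * s - 1) / 2) ^ m := pow_nonneg e2 m
    have h4 : ((r.ascFactorial n : ℝ)) ^ m * ((s.ascFactorial m : ℝ)) ^ n ≤ ((n * m)! : ℝ) := by
      calc ((r.ascFactorial n : ℝ)) ^ m * ((s.ascFactorial m : ℝ)) ^ n
          ≤ ((((n : ℝ) + 2 * r - 1) / 2) ^ n) ^ m * ((((m : ℝ) + 2 * s - 1) / 2) ^ m) ^ n :=
            mul_le_mul (pow_le_pow_left₀ (by positivity) h1 m) (pow_le_pow_left₀ (by positivity) h2 n)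
              (by positivity) (pow_nonneg e3 m)
        _ = ((((n : ℝ) + 2 * r - 1) / 2) * (((m : ℝ) + 2 * s - 1) / 2)) ^ (n * m) := by
            rw [← pow_mul, ← pow_mul, mul_pow, mul_comm m n]
        _ ≤ (((n * m : ℕ) : ℝ) / Real.exp 1) ^ (n * m) := by
            refine pow_le_pow_left₀ ?_ ?_ _
            · exact mul_nonneg e1 e2
            · rw [le_div_iff₀ (Real.exp_pos 1)]
              push_cast
              nlinarith [h]
        _ ≤ _ := h3
    exact_mod_cast h4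
  unfold cond
  rw [UNI.asc_split r n hr, UNI.asc_split s m hs, UNI.asc_split r (n * m) hr, UNI.asc_split s (n * m) hs]
  have h5 := UNI.fact_le_asc r (n * m) hr
  have h6 := UNI.fact_le_asc s (n * m) hs
  have hm1 : (r - 1)! ^ m = (r - 1)! * (r - 1)! ^ (m - 1) := by
    rw [← pow_succ', Nat.sub_add_cancel hm]
  have hn1 : (s - 1)! ^ n = (s - 1)! * (s - 1)! ^ (n - 1) := by
    rw [← pow_succ', Nat.sub_add_cancel hn]
  calc ((r - 1)! * r.ascFactorial n) ^ m * ((s - 1)! * s.ascFactorial m) ^ n * (n * m)!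
      = ((r - 1)! ^ m * (s - 1)! ^ n) * ((r.ascFactorial n ^ m * s.ascFactorial m ^ n) * (n * m)!) := by
        rw [mul_pow, mul_pow]; ring
    _ ≤ ((r - 1)! ^ m * (s - 1)! ^ n) * ((n * m)! * (n * m)!) := by gcongr
    _ ≤ ((r - 1)! ^ m * (s - 1)! ^ n) * (r.ascFactorial (n * m) * s.ascFactorial (n * m)) := by gcongr
    _ = _ := by rw [hm1, hn1]; ring

end Pool.Agent.T2H42.PJ
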