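import Pool.Agent.T2H42.PJ.Stm2
import Pool.Agent.T2H42.PJ.UNI

set_option autoImplicit false

open MeasureTheory Finset
open scoped Nat ComplexOrder

namespace Pool.Agent.T2H42.PJ

namespace ARIC1

lemma step_factor (m k : ℕ) (hm : 1 ≤ m) :
    ((4 : ℝ) / 5) ^ m * ((k : ℝ) + 1) ^ m * ((2 * m).ascFactorial m : ℝ) ≤
      (2 : ℝ) ^ m * ((k * m + m).ascFactorial m : ℝ) := by
  have h1 := UNI.asc_le (2 * m) m (by omega)
  have hmR : (1 : ℝ) ≤ m := by exact_mod_cast hm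
  have h2 : ((2 * m).ascFactorial m : ℝ) ≤ (5 * (m : ℝ) / 2) ^ m := by
    refine h1.trans ?_
    push_cast
    refine pow_le_pow_left₀ ?_ ?_ _
    · linarith
    · linarith
  have h3 : ((k * m + m : ℕ) : ℝ) ^ m ≤ ((k * m + m).ascFactorial m : ℝ) := by
    exact_mod_cast Nat.pow_succ_le_ascFactorial (k * m + m) m
  calc ((4 : ℝ) / 5) ^ m * ((k : ℝ) + 1) ^ m * ((2 * m).ascFactorial m : ℝ)
      ≤ ((4 : ℝ) / 5) ^ m * ((k : ℝ) + 1) ^ m * (5 * (m : ℝ) / 2) ^ m :=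
        mul_le_mul_of_nonneg_left h2 (by positivity)
    _ = (2 : ℝ) ^ m * ((k * m + m : ℕ) : ℝ) ^ m := by
        rw [← mul_pow, ← mul_pow, ← mul_pow]
        congr 1
        push_cast
        ring
    _ ≤ _ := mul_le_mul_of_nonneg_left h3 (by positivity)

end ARIC1

theorem pARIC1 : ∀ m k : ℕ, 1 ≤ m → 2 ≤ k →
    ((4 : ℝ) / 5) ^ (m * (k - 2)) * (k ! : ℝ) ^ m * ((2 * m + m - 1)! : ℝ) ^ (k - 1) ≤
      (2 : ℝ) ^ (m * (k - 1)) * (((k * m + m - 1)! : ℝ) * ((m + m - 1)! : ℝ) ^ (k - 2)) := by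
  intro m k hm hk
  induction k, hk using Nat.le_induction with
  | base =>
    simp
  | succ k hk ih =>
    obtain ⟨j, rfl⟩ : ∃ j, k = j + 2 := ⟨k - 2, by omega⟩
    have e1 : j + 2 - 2 = j := by omega
    have e2 : j + 2 - 1 = j + 1 := by omega
    have e3 : j + 2 + 1 - 2 = j + 1 := by omega
    have e4 : j + 2 + 1 - 1 = j + 2 := by omega
    rw [e1, e2] at ih
    rw [e3, e4]
    have f1 : (2 * m + m - 1)! = (m + m - 1)! * (2 * m).ascFactorial m := by
      have := Nat.factorial_mul_ascFactorial (2 * m - 1) m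
      rw [show 2 * m - 1 + 1 = 2 * m from by omega] at this
      rw [show m + m - 1 = 2 * m - 1 from by omega, this]
      congr 1
      omega
    have f2 : ((j + 2 + 1) * m + m - 1)! = ((j + 2) * m + m - 1)! * ((j + 2) * m + m).ascFactorial m := by
      have := Nat.factorial_mul_ascFactorial ((j + 2) * m + m - 1) m
      rw [show (j + 2) * m + m - 1 + 1 = (j + 2) * m + m from by omega] at this
      rw [this]
      congr 1
      have : (j + 2 + 1) * m = (j + 2) * m + m := by ring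
      omega
    have f3 : (j + 2 + 1)! = (j + 2 + 1) * (j + 2)! := Nat.factorial_succ _
    have hs := ARIC1.step_factor m (j + 2) hm
    have g1 : ((4 : ℝ) / 5) ^ (m * (j + 1)) * (((j + 2 + 1)! : ℕ) : ℝ) ^ m *
        (((2 * m + m - 1)! : ℕ) : ℝ) ^ (j + 2) =
        (((4 : ℝ) / 5) ^ (m * j) * (((j + 2)! : ℕ) : ℝ) ^ m * (((2 * m + m - 1)! : ℕ) : ℝ) ^ (j + 1)) *
        ((((4 : ℝ) / 5) ^ m * (((j + 2 : ℕ) : ℝ) + 1) ^ m * ((2 * m).ascFactorial m : ℝ)) *
          (((m + m - 1)! : ℕ) : ℝ)) := by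
      rw [f3]
      have q : (((2 * m + m - 1)! : ℕ) : ℝ) ^ (j + 2) = (((2 * m + m - 1)! : ℕ) : ℝ) ^ (j + 1) *
          ((((m + m - 1)! : ℕ) : ℝ) * ((2 * m).ascFactorial m : ℝ)) := by
        rw [pow_succ]
        congr 1
        rw [f1]
        push_cast
        rfl
      rw [q]
      push_cast
      rw [mul_pow, Nat.mul_succ, pow_add]
      ring
    have g2 : (2 : ℝ) ^ (m * (j + 2)) * (((((j + 2 + 1) * m + m - 1)! : ℕ) : ℝ) *
        (((m + m - 1)! : ℕ) : ℝ) ^ (j + 1)) =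
        ((2 : ℝ) ^ (m * (j + 1)) * (((((j + 2) * m + m - 1)! : ℕ) : ℝ) * (((m + m - 1)! : ℕ) : ℝ) ^ j)) *
        (((2 : ℝ) ^ m * (((j + 2) * m + m).ascFactorial m : ℝ)) * (((m + m - 1)! : ℕ) : ℝ)) := by
      rw [f2]
      push_cast
      rw [show m * (j + 2) = m * (j + 1) + m from by ring, pow_add, pow_succ (((m + m - 1)! : ℕ) : ℝ) j]
      ring
    rw [g1, g2]
    refine mul_le_mul ih ?_ (by positivity) (by positivity)
    exact mul_le_mul_of_nonneg_right hs (by positivity)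

end Pool.Agent.T2H42.PJ
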