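import Pool.Agent.T2H42.PJ.Stm

/-!
Project PJ, second part (helper42): the improved bound for all psd matrices, from the known case `k = 2`.
`M_j = E_sphere |p|^(2j)` satisfies `M_k ≥ M_2^(k-1) / M_1^(k-2)`.
-/

set_option autoImplicit false

open MeasureTheory Finset
open scoped Nat ComplexOrder

namespace Pool.Agent.T2H42.PJ

/-- JEN2 (30 min, Deps: GAU, GRAM; as JEN). Let `p = ∏_i lin (V i)`, `x = ‖p‖²`, `u_j = per(gram (Fin j × Fin m)) = E x^j`,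
`t = s ρ^m`. Pointwise `(k-1) t^(k-2) x² - (k-2) t^(k-1) x ≤ x^k` (for `x, t ≥ 0`; `x` times the tangent line inequality).
Integrate: `E ρ^{m(k-2)} x² = (2m+r).ascFactorial (m(k-2)) u₂ = (km+r-1)!/(2m+r-1)! u₂`,
`E ρ^{m(k-1)} x = (km+r-1)!/(m+r-1)! u₁`. So `u_k ≥ (km+r-1)! ((k-1) s^(k-2) a₂ - (k-2) s^(k-1) a₁)`, `a₂ = u₂/(2m+r-1)!`,
`a₁ = u₁/(m+r-1)!`; `s = a₂/a₁` gives `u_k ≥ (km+r-1)! a₂^(k-1)/a₁^(k-2)`. -/
def S_JEN2 : Prop := ∀ (r m k : ℕ) (V : Fin m → Fin r → ℂ), 1 ≤ r → 2 ≤ k → 0 < (gram V).permanent.re →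
  ((k * m + r - 1)! : ℝ) * ((m + r - 1)! : ℝ) ^ (k - 2) *
      (gram (fun p : Fin 2 × Fin m => V p.2)).permanent.re ^ (k - 1) ≤
    ((2 * m + r - 1)! : ℝ) ^ (k - 1) * (gram V).permanent.re ^ (k - 2) *
      (gram (fun p : Fin k × Fin m => V p.2)).permanent.re

/-- TWO (10 min, no Deps): from the starting file `Pool.Agent.Results.MP_2dd521_co.TwoByTwo` (`n = 2`, `A = J_2`). -/
def S_TWO : Prop := ∀ (m : ℕ) (M : Matrix (Fin m) (Fin m) ℂ), M.PosSemidef →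
  (2 : ℝ) ^ m * M.permanent.re ^ 2 ≤ (Matrix.kronecker (Matrix.of fun _ _ : Fin 2 => (1 : ℂ)) M).permanent.re

/-- ARIC (25 min, no Deps). With `(N+q)! = q! (q+1).ascFactorial N`. First: `k = 2` is equality up to the power `0`; step: the
factor is `2^m (km+m)⋯(km+2m-1)·(2m-1)!/(3m-1)!`, `(km+m)^(m) ≥ ((k+1)m)^m`, `(3m-1)!/(2m-1)! = (2m)^(m) ≤ (5m/2)^m` (AM-GM: pair `i`
with `m-1-i`). Second: `(nm+n-1)!/(2n-1)! ≥ (nm)!/n!`, `n! ≤ n^n`, the same AM-GM. -/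
def S_ARIC : Prop := (∀ m k : ℕ, 1 ≤ m → 2 ≤ k →
    ((4 : ℝ) / 5) ^ (m * (k - 2)) * (k ! : ℝ) ^ m * ((2 * m + m - 1)! : ℝ) ^ (k - 1) ≤
      (2 : ℝ) ^ (m * (k - 1)) * (((k * m + m - 1)! : ℝ) * ((m + m - 1)! : ℝ) ^ (k - 2))) ∧
  ∀ n m : ℕ, 1 ≤ n → 2 ≤ m →
    (((n * m)! : ℝ) * ((4 : ℝ) / (5 * n)) ^ (n * m)) * ((2 * n + n - 1)! : ℝ) ^ (m - 1) ≤
      (2 : ℝ) ^ (n * (m - 1)) * (((m * n + n - 1)! : ℝ) * ((n + n - 1)! : ℝ) ^ (m - 2))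

end Pool.Agent.T2H42.PJ
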