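import Pool.Agent.T2H42.PJ.UNI
import Pool.Agent.T2H42.PJ.Stm2

/-! Package ARIC2 of project PJ (helper42), by helper94. -/

set_option autoImplicit false

open MeasureTheory Finset
open scoped Nat ComplexOrder

namespace Pool.Agent.T2H42.PJ

namespace ARIC2

lemma fact_quot (n N k : ℕ) (h : n ≤ N) : N ! * (n + k)! ≤ n ! * (N + k)! := by
  rw [← Nat.factorial_mul_ascFactorial n k, ← Nat.factorial_mul_ascFactorial N k]
  have h1 : (n + 1).ascFactorial k ≤ (N + 1).ascFactorial k := by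
    rw [Nat.ascFactorial_eq_prod_range, Nat.ascFactorial_eq_prod_range]
    exact Finset.prod_le_prod' fun i _ => by omega
  calc N ! * (n ! * (n + 1).ascFactorial k) = n ! * (N ! * (n + 1).ascFactorial k) := by ring
    _ ≤ n ! * (N ! * (N + 1).ascFactorial k) := by gcongr

end ARIC2

open ARIC2 in
theorem pARIC2 : ∀ n m : ℕ, 1 ≤ n → 2 ≤ m →
    (((n * m)! : ℝ) * ((4 : ℝ) / (5 * n)) ^ (n * m)) * ((2 * n + n - 1)! : ℝ) ^ (m - 1) ≤
      (2 : ℝ) ^ (n * (m - 1)) * (((m * n + n - 1)! : ℝ) * ((n + n - 1)! : ℝ) ^ (m - 2)) := by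
  intro n m hn hm
  obtain ⟨q, rfl⟩ : ∃ q, m = q + 2 := ⟨m - 2, by omega⟩
  have e1 : q + 2 - 1 = q + 1 := by omega
  have e2 : q + 2 - 2 = q := by omega
  rw [e1, e2]
  have hn' : (1 : ℝ) ≤ n := by exact_mod_cast hn
  have hn0 : (n : ℝ) ≠ 0 := by linarith
  obtain ⟨A, hA⟩ : ∃ A : ℝ, A = ((n + n - 1)! : ℝ) := ⟨_, rfl⟩
  obtain ⟨α, hα⟩ : ∃ α : ℝ, α = ((2 * n).ascFactorial n : ℝ) := ⟨_, rfl⟩
  obtain ⟨F, hF⟩ : ∃ F : ℝ, F = (((q + 2) * n + n - 1)! : ℝ) := ⟨_, rfl⟩
  obtain ⟨H, hH⟩ : ∃ H : ℝ, H = ((n * (q + 2))! : ℝ) := ⟨_, rfl⟩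
  have hB : ((2 * n + n - 1)! : ℝ) = A * α := by
    have h := UNI.asc_split (2 * n) n (by omega)
    have h1 : n + 2 * n - 1 = 2 * n + n - 1 := by omega
    have h2 : 2 * n - 1 = n + n - 1 := by omega
    rw [h1, h2] at h
    rw [h, hA, hα]
    push_cast
    ring
  have hA0 : 0 < A := by rw [hA]; exact_mod_cast Nat.factorial_pos _
  have hα0 : 0 ≤ α := by rw [hα]; positivity
  have hF0 : 0 < F := by rw [hF]; exact_mod_cast Nat.factorial_pos _
  have hH0 : 0 < H := by rw [hH]; exact_mod_cast Nat.factorial_pos _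
  have hα1 : α ≤ (5 * (n : ℝ) / 2) ^ n := by
    rw [hα]
    refine (UNI.asc_le (2 * n) n (by omega)).trans ?_
    refine pow_le_pow_left₀ ?_ ?_ n
    · push_cast
      linarith
    · push_cast
      linarith
  have hkey : H * A ≤ (n : ℝ) ^ n * F := by
    have h := fact_quot n (n * (q + 2)) (n - 1) (by nlinarith)
    have h1 : n + (n - 1) = n + n - 1 := by omega
    have h2 : n * (q + 2) + (n - 1) = (q + 2) * n + n - 1 := by
      rw [Nat.mul_comm n (q + 2)]
      omega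
    rw [h1, h2] at h
    have h3 : H * A ≤ (n ! : ℝ) * F := by
      rw [hH, hA, hF]
      exact_mod_cast h
    have h4 : (n ! : ℝ) ≤ (n : ℝ) ^ n := by exact_mod_cast Nat.factorial_le_pow n
    exact h3.trans (mul_le_mul_of_nonneg_right h4 hF0.le)
  rw [hB, ← hA, ← hF, ← hH]
  have hx : (0 : ℝ) ≤ 4 / (5 * n) := by positivity
  calc H * (4 / (5 * (n : ℝ))) ^ (n * (q + 2)) * (A * α) ^ (q + 1)
      = (H * A) * ((4 / (5 * (n : ℝ))) ^ (n * (q + 2)) * A ^ q * α ^ (q + 1)) := by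
        rw [mul_pow, pow_succ A q]
        ring
    _ ≤ ((n : ℝ) ^ n * F) * ((4 / (5 * (n : ℝ))) ^ (n * (q + 2)) * A ^ q *
          ((5 * (n : ℝ) / 2) ^ n) ^ (q + 1)) := by
        refine mul_le_mul hkey ?_ (by positivity) (by positivity)
        exact mul_le_mul_of_nonneg_left (pow_le_pow_left₀ hα0 hα1 _) (by positivity)
    _ = ((4 : ℝ) / 5) ^ n * (2 ^ (n * (q + 1)) * (F * A ^ q)) := by
        have h1 : (4 / (5 * (n : ℝ))) ^ (n * (q + 2)) =
            (4 / (5 * (n : ℝ))) ^ n * (4 / (5 * (n : ℝ))) ^ (n * (q + 1)) := by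
          rw [← pow_add]
          congr 1
          ring
        have h2 : (n : ℝ) ^ n * (4 / (5 * (n : ℝ))) ^ n = ((4 : ℝ) / 5) ^ n := by
          rw [← mul_pow]
          congr 1
          field_simp
        have h3 : (4 / (5 * (n : ℝ))) ^ (n * (q + 1)) * ((5 * (n : ℝ) / 2) ^ n) ^ (q + 1) =
            2 ^ (n * (q + 1)) := by
          rw [← pow_mul, ← mul_pow]
          congr 1
          field_simp
          norm_num
        calc _ = ((n : ℝ) ^ n * (4 / (5 * (n : ℝ))) ^ n) *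
              ((4 / (5 * (n : ℝ))) ^ (n * (q + 1)) * ((5 * (n : ℝ) / 2) ^ n) ^ (q + 1)) *
              (F * A ^ q) := by
              rw [h1]
              ring
          _ = _ := by
              rw [h2, h3]
              ring
    _ ≤ 2 ^ (n * (q + 1)) * (F * A ^ q) := by
        have h5 : ((4 : ℝ) / 5) ^ n ≤ 1 := pow_le_one₀ (by norm_num) (by norm_num)
        have h6 : 0 ≤ (2 : ℝ) ^ (n * (q + 1)) * (F * A ^ q) := by positivity
        nlinarith

end Pool.Agent.T2H42.PJ
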