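import Pool.Agent.T2H42.PJ.Stm

set_option autoImplicit false

open MeasureTheory Finset
open scoped Nat ComplexOrder

namespace Pool.Agent.T2H42.PJ

namespace ASY

lemma log_fact_le (n : ℕ) (hn : 1 ≤ n) :
    Real.log (n ! : ℝ) ≤ ((n : ℝ) + 1) * Real.log n - n + 1 := by
  induction n, hn using Nat.le_induction with
  | base => simp
  | succ n hn ih =>
    have hn0 : (0 : ℝ) < n := by exact_mod_cast hn
    rw [Nat.factorial_succ]
    push_cast
    rw [Real.log_mul (by positivity) (by positivity)]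
    have h1 : Real.log ((n : ℝ) / (n + 1)) ≤ (n : ℝ) / (n + 1) - 1 :=
      Real.log_le_sub_one_of_pos (by positivity)
    rw [Real.log_div (by positivity) (by positivity)] at h1
    have h2 : (n : ℝ) / (n + 1) - 1 = -(1 / ((n : ℝ) + 1)) := by field_simp; ring
    rw [h2] at h1
    have h3 : ((n : ℝ) + 1) * (Real.log n - Real.log ((n : ℝ) + 1)) ≤ -1 := by
      have := mul_le_mul_of_nonneg_left h1 (by positivity : (0 : ℝ) ≤ (n : ℝ) + 1)
      refine this.trans (le_of_eq ?_)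
      field_simp
    nlinarith

lemma log_fact_ge (n : ℕ) : (n : ℝ) * Real.log n - n ≤ Real.log (n ! : ℝ) := by
  rcases Nat.eq_zero_or_pos n with h | h
  · subst h
    simp
  · have hn0 : (0 : ℝ) < n := by exact_mod_cast h
    have h1 := Real.pow_div_factorial_le_exp (n : ℝ) hn0.le n
    have hf : (0 : ℝ) < (n ! : ℝ) := by exact_mod_cast Nat.factorial_pos n
    rw [div_le_iff₀ hf] at h1
    have h2 := Real.log_le_log (by positivity) h1
    rw [Real.log_pow, Real.log_mul (Real.exp_pos _).ne' hf.ne', Real.log_exp] at h2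
    linarith

lemma up (n r : ℕ) (hn : 1 ≤ n) (hr : 1 ≤ r) : Real.log ((n + r - 1)! : ℝ) ≤
    n * Real.log n - n + (r * Real.log n + (r : ℝ) ^ 2 + 1) := by
  have hn0 : (1 : ℝ) ≤ n := by exact_mod_cast hn
  have hr0 : (1 : ℝ) ≤ r := by exact_mod_cast hr
  have h1 := log_fact_le (n + r - 1) (by omega)
  have hc : ((n + r - 1 : ℕ) : ℝ) = n + r - 1 := by
    rw [Nat.cast_sub (by omega)]
    push_cast
    ring
  rw [hc] at h1
  have h2 : Real.log ((n : ℝ) + r - 1) ≤ Real.log n + (r - 1) / n := by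
    have h3 : (n : ℝ) + r - 1 = n * (1 + (r - 1) / n) := by field_simp; ring
    have h4 : (0 : ℝ) ≤ (r - 1) / n := div_nonneg (by linarith) (by linarith)
    rw [h3, Real.log_mul (by positivity) (by positivity)]
    have h5 := Real.log_le_sub_one_of_pos (by positivity : (0 : ℝ) < 1 + (r - 1) / n)
    linarith
  have h6 : ((n : ℝ) + r - 1 + 1) * Real.log ((n : ℝ) + r - 1) ≤
      ((n : ℝ) + r) * (Real.log n + (r - 1) / n) := by
    rw [show (n : ℝ) + r - 1 + 1 = n + r by ring]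
    exact mul_le_mul_of_nonneg_left h2 (by positivity)
  have h7 : ((n : ℝ) + r) * ((r - 1) / n) ≤ (r - 1) + r * (r - 1) := by
    have h8 : ((n : ℝ) + r) * ((r - 1) / n) = (r - 1) + r * ((r - 1) / n) := by
      field_simp
    rw [h8]
    have h9 : ((r : ℝ) - 1) / n ≤ r - 1 := div_le_self (by linarith) hn0
    have := mul_le_mul_of_nonneg_left h9 (by linarith : (0 : ℝ) ≤ r)
    linarith
  nlinarith

lemma ev (r : ℕ) : ∃ n₀ : ℕ, ∀ n : ℕ, n₀ ≤ n → (r : ℝ) * Real.log n + (r : ℝ) ^ 2 + 1 ≤ n / 2 := by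
  have h1 := Real.isLittleO_log_id_atTop.comp_tendsto (tendsto_natCast_atTop_atTop (R := ℝ))
  have h2 := h1.bound (show (0 : ℝ) < 1 / (4 * (r + 1)) by positivity)
  obtain ⟨n₁, hn₁⟩ := Filter.eventually_atTop.1 h2
  refine ⟨max n₁ (4 * (r ^ 2 + 1)), fun n hn => ?_⟩
  have h3 := hn₁ n ((le_max_left _ _).trans hn)
  have h4 : 4 * (r ^ 2 + 1) ≤ n := (le_max_right _ _).trans hn
  have h4' : (4 : ℝ) * ((r : ℝ) ^ 2 + 1) ≤ n := by exact_mod_cast h4
  simp only [Function.comp_apply, id_eq, Real.norm_eq_abs, Nat.abs_cast] at h3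
  have h5 : Real.log n ≤ 1 / (4 * (r + 1)) * n := (le_abs_self _).trans h3
  have h6 : (r : ℝ) * Real.log n ≤ n / 4 := by
    have h7 := mul_le_mul_of_nonneg_left h5 (Nat.cast_nonneg r : (0 : ℝ) ≤ r)
    refine h7.trans ?_
    have h8 : (r : ℝ) * (1 / (4 * (r + 1)) * n) = (r / (r + 1)) * (n / 4) := by
      field_simp
    rw [h8]
    have h9 : (r : ℝ) / (r + 1) ≤ 1 := by
      rw [div_le_one (by positivity)]
      linarith
    have h10 : (0 : ℝ) ≤ n / 4 := by positivity
    nlinarith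
  linarith

end ASY

open ASY

theorem pASY : S_ASY := by
  intro r s hr hs
  obtain ⟨n₁, h₁⟩ := ev r
  obtain ⟨n₂, h₂⟩ := ev s
  refine ⟨max (max n₁ n₂) 1, fun n m hn hm => ?_⟩
  have hn1 : 1 ≤ n := (le_max_right _ _).trans hn
  have hm1 : 1 ≤ m := (le_max_right _ _).trans hm
  have k1 := h₁ n (((le_max_left _ _).trans (le_max_left _ _)).trans hn)
  have k2 := h₂ m (((le_max_right _ _).trans (le_max_left _ _)).trans hm)
  have hn0 : (1 : ℝ) ≤ n := by exact_mod_cast hn1
  have hm0 : (1 : ℝ) ≤ m := by exact_mod_cast hm1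
  have key : (n + r - 1)! ^ m * (m + s - 1)! ^ n ≤ (n * m)! := by
    rw [← Nat.cast_le (α := ℝ)]
    push_cast
    have hf1 : (0 : ℝ) < ((n + r - 1)! : ℝ) := by exact_mod_cast Nat.factorial_pos _
    have hf2 : (0 : ℝ) < ((m + s - 1)! : ℝ) := by exact_mod_cast Nat.factorial_pos _
    have hf3 : (0 : ℝ) < ((n * m)! : ℝ) := by exact_mod_cast Nat.factorial_pos _
    rw [← Real.log_le_log_iff (by positivity) hf3, Real.log_mul (by positivity) (by positivity),
      Real.log_pow, Real.log_pow]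
    have u1 := mul_le_mul_of_nonneg_left (up n r hn1 hr) (by linarith : (0 : ℝ) ≤ m)
    have u2 := mul_le_mul_of_nonneg_left (up m s hm1 hs) (by linarith : (0 : ℝ) ≤ n)
    have u3 := log_fact_ge (n * m)
    push_cast at u3
    rw [Real.log_mul (by linarith) (by linarith)] at u3
    have v1 := mul_le_mul_of_nonneg_left k1 (by linarith : (0 : ℝ) ≤ m)
    have v2 := mul_le_mul_of_nonneg_left k2 (by linarith : (0 : ℝ) ≤ n)
    nlinarith
  unfold cond
  have a1 : (n * m)! ≤ (n * m + r - 1)! := Nat.factorial_le (by omega)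
  have a2 : (n * m)! ≤ (n * m + s - 1)! := Nat.factorial_le (by omega)
  have b1 : 1 ≤ (r - 1)! ^ (m - 1) := Nat.one_le_pow _ _ (Nat.factorial_pos _)
  have b2 : 1 ≤ (s - 1)! ^ (n - 1) := Nat.one_le_pow _ _ (Nat.factorial_pos _)
  calc (n + r - 1)! ^ m * (m + s - 1)! ^ n * (n * m)! ≤ (n * m)! * (n * m)! :=
        Nat.mul_le_mul_right _ key
    _ ≤ ((n * m + r - 1)! * (r - 1)! ^ (m - 1)) * ((n * m + s - 1)! * (s - 1)! ^ (n - 1)) := by
        apply Nat.mul_le_mul
        · calc (n * m)! = (n * m)! * 1 := (mul_one _).symm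
            _ ≤ _ := Nat.mul_le_mul a1 b1
        · calc (n * m)! = (n * m)! * 1 := (mul_one _).symm
            _ ≤ _ := Nat.mul_le_mul a2 b2

end Pool.Agent.T2H42.PJ
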