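import Pool.Agent.T2H42.PJ.Stm

set_option autoImplicit false

open MeasureTheory Finset
open scoped Nat ComplexOrder

namespace Pool.Agent.T2H42.PJ

namespace CNT

variable {ι : Type} [Fintype ι] [DecidableEq ι] {r : ℕ}

lemma mult_eq {c d : ι → Fin r} {σ : Equiv.Perm ι} (h : ∀ i, c i = d (σ i)) (x : Fin r) :
    (univ.filter fun i => c i = x).card = (univ.filter fun i => d i = x).card := by
  refine Finset.card_bij (fun i _ => σ i) ?_ ?_ ?_
  · intro i hi
    rw [mem_filter] at hi ⊢
    exact ⟨mem_univ _, by rw [← h i]; exact hi.2⟩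
  · intro i _ j _ hij
    exact σ.injective hij
  · intro j hj
    rw [mem_filter] at hj
    refine ⟨σ.symm j, ?_, by simp⟩
    rw [mem_filter]
    exact ⟨mem_univ _, by rw [h, Equiv.apply_symm_apply]; exact hj.2⟩

lemma exists_perm {c d : ι → Fin r}
    (h : ∀ x, (univ.filter fun i => c i = x).card = (univ.filter fun i => d i = x).card) :
    ∃ σ : Equiv.Perm ι, ∀ i, c i = d (σ i) := by
  have e : ∀ x, Nonempty ({i // c i = x} ≃ {i // d i = x}) := by
    intro x
    refine ⟨Fintype.equivOfCardEq ?_⟩
    rw [Fintype.card_subtype, Fintype.card_subtype]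
    exact h x
  let f : ∀ x, {i // c i = x} ≃ {i // d i = x} := fun x => (e x).some
  refine ⟨((Equiv.sigmaFiberEquiv c).symm.trans (Equiv.sigmaCongrRight f)).trans
    (Equiv.sigmaFiberEquiv d), fun i => ?_⟩
  have : (((Equiv.sigmaFiberEquiv c).symm.trans (Equiv.sigmaCongrRight f)).trans
    (Equiv.sigmaFiberEquiv d)) i = (f (c i) ⟨i, rfl⟩ : ι) := rfl
  rw [this]
  exact (f (c i) ⟨i, rfl⟩).2.symm

end CNT

open CNT in
theorem pCNT : S_CNT := by
  intro ι _ _ r c d
  by_cases h : (fun x => (univ.filter fun i => c i = x).card) =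
      (fun x => (univ.filter fun i => d i = x).card)
  · rw [if_pos h]
    obtain ⟨σ₀, hσ⟩ := exists_perm (c := c) (d := d) fun x => congrFun h x
    have h1 : (univ.filter fun σ : Equiv.Perm ι => ∀ i, c i = d (σ i)).card =
        Fintype.card {g : Equiv.Perm ι // c ∘ g = c} := by
      rw [Fintype.card_subtype]
      refine Finset.card_bij (fun σ _ => σ₀.symm * σ) ?_ ?_ ?_
      · intro σ hs
        rw [mem_filter] at hs ⊢
        refine ⟨mem_univ _, ?_⟩
        funext i
        change c (σ₀.symm (σ i)) = c i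
        rw [hσ (σ₀.symm (σ i)), Equiv.apply_symm_apply]
        exact (hs.2 i).symm
      · intro σ _ τ _ hst
        exact mul_left_cancel hst
      · intro g hg
        rw [mem_filter] at hg
        refine ⟨σ₀ * g, ?_, ?_⟩
        · rw [mem_filter]
          refine ⟨mem_univ _, fun i => ?_⟩
          change c i = d (σ₀ (g i))
          rw [← hσ (g i)]
          exact (congrFun hg.2 i).symm
        · change σ₀⁻¹ * (σ₀ * g) = g
          exact inv_mul_cancel_left σ₀ g
    rw [h1, DomMulAct.stabilizer_card c]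
    refine Finset.prod_congr rfl fun x _ => ?_
    rw [Fintype.card_subtype]
  · rw [if_neg h, Finset.card_eq_zero, Finset.filter_eq_empty_iff]
    intro σ _ hs
    exact h (funext fun x => mult_eq hs x)

end Pool.Agent.T2H42.PJ
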