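import Pool.Agent.T2H42.PJ.MAIN2
import Pool.Agent.T2H42.PJ.UNI

/-!
Project PJ: consequences of the general bound, for two positive semidefinite matrices.
-/

set_option autoImplicit false

open MeasureTheory Finset
open scoped Nat ComplexOrder

namespace Pool.Agent.T2H42.PJ

namespace FIN

/-- passage from real parts to the order of `ℂ` -/
lemma to_complex {x y h : ℂ} (m n : ℕ) (c d : ℝ) (hx : x.im = 0) (hy : y.im = 0) (hh : h.im = 0)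
    (H : c * (x.re ^ m * y.re ^ n) ≤ d * h.re) :
    ((c : ℝ) : ℂ) * (x ^ m * y ^ n) ≤ ((d : ℝ) : ℂ) * h := by
  rw [MAIN.re_of_im hx, MAIN.re_of_im hy, MAIN.re_of_im hh]
  have := Complex.real_le_real.2 H
  push_cast at this
  exact this

lemma uni (n m r s : ℕ) (hn : 1 ≤ n) (hm : 1 ≤ m) (hr : 1 ≤ r) (hs : 1 ≤ s) (c : ℝ) (hc : 0 ≤ c)
    (h : c * (Real.exp 1 * (((n : ℝ) + 2 * r - 1) * ((m : ℝ) + 2 * s - 1))) ≤ 4 * n * m) :
    c ^ (n * m) * (((n + r - 1)! : ℝ) ^ m * ((m + s - 1)! : ℝ) ^ n * ((n * m)! : ℝ)) ≤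
      ((n * m + r - 1)! : ℝ) * ((r - 1)! : ℝ) ^ (m - 1) * (((n * m + s - 1)! : ℝ) * ((s - 1)! : ℝ) ^ (n - 1)) := by
  have hn' : (1 : ℝ) ≤ n := by exact_mod_cast hn
  have hm' : (1 : ℝ) ≤ m := by exact_mod_cast hm
  have hr' : (1 : ℝ) ≤ r := by exact_mod_cast hr
  have hs' : (1 : ℝ) ≤ s := by exact_mod_cast hs
  have e1 : (0 : ℝ) ≤ ((n : ℝ) + 2 * r - 1) / 2 := by linarith
  have e2 : (0 : ℝ) ≤ ((m : ℝ) + 2 * s - 1) / 2 := by linarith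
  have e3 : (0 : ℝ) ≤ (((n : ℝ) + 2 * r - 1) / 2) ^ n := pow_nonneg e1 n
  have h1 := UNI.asc_le r n hr
  have h2 := UNI.asc_le s m hs
  have h3 := UNI.fact_ge (n * m)
  have h4 : c ^ (n * m) * (((r.ascFactorial n : ℝ)) ^ m * ((s.ascFactorial m : ℝ)) ^ n) ≤ ((n * m)! : ℝ) := by
    calc c ^ (n * m) * (((r.ascFactorial n : ℝ)) ^ m * ((s.ascFactorial m : ℝ)) ^ n)
        ≤ c ^ (n * m) * (((((n : ℝ) + 2 * r - 1) / 2) ^ n) ^ m * ((((m : ℝ) + 2 * s - 1) / 2) ^ m) ^ n) :=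
          mul_le_mul_of_nonneg_left
            (mul_le_mul (pow_le_pow_left₀ (by positivity) h1 m) (pow_le_pow_left₀ (by positivity) h2 n)
            (by positivity) (pow_nonneg e3 m)) (pow_nonneg hc _)
      _ = (c * ((((n : ℝ) + 2 * r - 1) / 2) * (((m : ℝ) + 2 * s - 1) / 2))) ^ (n * m) := by
          rw [← pow_mul, ← pow_mul, mul_pow, mul_pow, mul_comm m n]
      _ ≤ (((n * m : ℕ) : ℝ) / Real.exp 1) ^ (n * m) := by
          refine pow_le_pow_left₀ (mul_nonneg hc (mul_nonneg e1 e2)) ?_ _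
          rw [le_div_iff₀ (Real.exp_pos 1)]
          push_cast
          nlinarith [h]
      _ ≤ _ := h3
  rw [UNI.asc_split r n hr, UNI.asc_split s m hs, UNI.asc_split r (n * m) hr, UNI.asc_split s (n * m) hs]
  have h5 : ((n * m)! : ℝ) ≤ (r.ascFactorial (n * m) : ℝ) := by exact_mod_cast UNI.fact_le_asc r (n * m) hr
  have h6 : ((n * m)! : ℝ) ≤ (s.ascFactorial (n * m) : ℝ) := by exact_mod_cast UNI.fact_le_asc s (n * m) hs
  have hm1 : ((r - 1)! : ℝ) ^ m = ((r - 1)! : ℝ) * ((r - 1)! : ℝ) ^ (m - 1) := by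
    rw [← pow_succ', Nat.sub_add_cancel hm]
  have hn1 : ((s - 1)! : ℝ) ^ n = ((s - 1)! : ℝ) * ((s - 1)! : ℝ) ^ (n - 1) := by
    rw [← pow_succ', Nat.sub_add_cancel hn]
  push_cast
  calc c ^ (n * m) * ((((r - 1)! : ℝ) * (r.ascFactorial n : ℝ)) ^ m * (((s - 1)! : ℝ) * (s.ascFactorial m : ℝ)) ^ n *
        ((n * m)! : ℝ))
      = (((r - 1)! : ℝ) ^ m * ((s - 1)! : ℝ) ^ n) *
        ((c ^ (n * m) * ((r.ascFactorial n : ℝ) ^ m * (s.ascFactorial m : ℝ) ^ n)) * ((n * m)! : ℝ)) := by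
        rw [mul_pow, mul_pow]; ring
    _ ≤ (((r - 1)! : ℝ) ^ m * ((s - 1)! : ℝ) ^ n) * (((n * m)! : ℝ) * ((n * m)! : ℝ)) := by gcongr
    _ ≤ (((r - 1)! : ℝ) ^ m * ((s - 1)! : ℝ) ^ n) *
        ((r.ascFactorial (n * m) : ℝ) * (s.ascFactorial (n * m) : ℝ)) := by gcongr
    _ = _ := by rw [hm1, hn1]; ring

end FIN

/-- the general bound in `ℂ` -/
theorem general (hGEN : S_GEN) (n m r s : ℕ) (A : Matrix (Fin n) (Fin n) ℂ) (B : Matrix (Fin m) (Fin m) ℂ)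
    (hn : 1 ≤ n) (hm : 1 ≤ m) (hr : 1 ≤ r) (hs : 1 ≤ s) (hA : A.PosSemidef) (hB : B.PosSemidef)
    (hrA : A.rank ≤ r) (hrB : B.rank ≤ s) :
    (((n * m + r - 1)! * (r - 1)! ^ (m - 1) * ((n * m + s - 1)! * (s - 1)! ^ (n - 1)) : ℕ) : ℂ) *
        (A.permanent ^ m * B.permanent ^ n) ≤
      (((n + r - 1)! ^ m * (m + s - 1)! ^ n * (n * m)! : ℕ) : ℂ) * (Matrix.kronecker A B).permanent := by
  obtain ⟨⟨h1, -, h3, -, h5⟩, H⟩ := hGEN n m r s A B hn hm hr hs hA hB hrA hrB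
  have := FIN.to_complex m n _ _ h1 h3 h5 H
  push_cast at this ⊢
  exact this

/-- the inequality up to a power -/
theorem powers (hGEN : S_GEN) (n m r s : ℕ) (A : Matrix (Fin n) (Fin n) ℂ) (B : Matrix (Fin m) (Fin m) ℂ)
    (hn : 1 ≤ n) (hm : 1 ≤ m) (hr : 1 ≤ r) (hs : 1 ≤ s) (hA : A.PosSemidef) (hB : B.PosSemidef)
    (hrA : A.rank ≤ r) (hrB : B.rank ≤ s) (c : ℝ) (hc : 0 ≤ c)
    (h : c * (Real.exp 1 * (((n : ℝ) + 2 * r - 1) * ((m : ℝ) + 2 * s - 1))) ≤ 4 * n * m) :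
    ((c : ℝ) : ℂ) ^ (n * m) * (A.permanent ^ m * B.permanent ^ n) ≤ (Matrix.kronecker A B).permanent := by
  obtain ⟨⟨h1, h2, h3, h4, h5⟩, H⟩ := hGEN n m r s A B hn hm hr hs hA hB hrA hrB
  have hu := FIN.uni n m r s hn hm hr hs c hc h
  have hY : (0 : ℝ) < ((n + r - 1)! : ℝ) ^ m * ((m + s - 1)! : ℝ) ^ n * ((n * m)! : ℝ) := by positivity
  have hPQ : (0 : ℝ) ≤ A.permanent.re ^ m * B.permanent.re ^ n := mul_nonneg (pow_nonneg h2 _) (pow_nonneg h4 _)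
  have K : c ^ (n * m) * (A.permanent.re ^ m * B.permanent.re ^ n) ≤ 1 * (Matrix.kronecker A B).permanent.re := by
    rw [one_mul]
    refine le_of_mul_le_mul_left ?_ hY
    calc (((n + r - 1)! : ℝ) ^ m * ((m + s - 1)! : ℝ) ^ n * ((n * m)! : ℝ)) *
          (c ^ (n * m) * (A.permanent.re ^ m * B.permanent.re ^ n))
        = (c ^ (n * m) * (((n + r - 1)! : ℝ) ^ m * ((m + s - 1)! : ℝ) ^ n * ((n * m)! : ℝ))) *
          (A.permanent.re ^ m * B.permanent.re ^ n) := by ring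
      _ ≤ _ := mul_le_mul_of_nonneg_right hu hPQ
      _ ≤ _ := H
  have := FIN.to_complex m n _ _ h1 h3 h5 K
  push_cast at this
  simpa using this

/-- a factor of rank one -/
theorem rankOne (hGEN : S_GEN) (hARI : S_ARI) (n m : ℕ) (A : Matrix (Fin n) (Fin n) ℂ) (B : Matrix (Fin m) (Fin m) ℂ)
    (hn : 1 ≤ n) (hm : 1 ≤ m) (hA : A.PosSemidef) (hB : B.PosSemidef)
    (hrA : A.rank ≤ 1) (hrB : 2 * B.rank ≤ m + 1) :
    A.permanent ^ m * B.permanent ^ n ≤ (Matrix.kronecker A B).permanent := by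
  obtain ⟨s, hs, hrs, h2s⟩ : ∃ s : ℕ, 1 ≤ s ∧ B.rank ≤ s ∧ 2 * s ≤ m + 1 :=
    ⟨max 1 B.rank, le_max_left _ _, le_max_right _ _, by omega⟩
  obtain ⟨⟨h1, h2, h3, h4, h5⟩, H⟩ := hGEN n m 1 s A B hn hm le_rfl hs hA hB hrA hrs
  have ha := hARI.1 s m n hs hn (hARI.2 s m hs h2s)
  have ha' : ((n ! : ℝ)) ^ m * ((m + s - 1)! : ℝ) ^ n ≤ ((n * m + s - 1)! : ℝ) * ((s - 1)! : ℝ) ^ (n - 1) := by
    exact_mod_cast ha
  have hPQ : (0 : ℝ) ≤ A.permanent.re ^ m * B.permanent.re ^ n := mul_nonneg (pow_nonneg h2 _) (pow_nonneg h4 _)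
  have hY : (0 : ℝ) < (n ! : ℝ) ^ m * ((m + s - 1)! : ℝ) ^ n * ((n * m)! : ℝ) := by positivity
  have e1 : n + 1 - 1 = n := by omega
  have e2 : n * m + 1 - 1 = n * m := by omega
  rw [e1, e2] at H
  have K : 1 * (A.permanent.re ^ m * B.permanent.re ^ n) ≤ 1 * (Matrix.kronecker A B).permanent.re := by
    rw [one_mul, one_mul]
    refine le_of_mul_le_mul_left ?_ hY
    refine le_trans ?_ H
    refine mul_le_mul_of_nonneg_right ?_ hPQ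
    simp only [le_refl, Nat.sub_self, Nat.factorial_zero, Nat.cast_one, one_pow, mul_one]
    calc (n ! : ℝ) ^ m * ((m + s - 1)! : ℝ) ^ n * ((n * m)! : ℝ)
        ≤ (((n * m + s - 1)! : ℝ) * ((s - 1)! : ℝ) ^ (n - 1)) * ((n * m)! : ℝ) := by gcongr
      _ = _ := by ring
  have := FIN.to_complex m n _ _ h1 h3 h5 K
  simpa using this

end Pool.Agent.T2H42.PJ
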