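import Pool.Agent.T2H42.PJ.MAIN2
import Pool.Agent.T2H42.PJ.UNI

/-!
Project PJ: consequences for `J_k ⊗ M`.
-/

set_option autoImplicit false

open MeasureTheory Finset
open scoped Nat ComplexOrder

namespace Pool.Agent.T2H42.PJ

/-- the `k × k` matrix with all entries `1` -/
def JJ (k : ℕ) : Matrix (Fin k) (Fin k) ℂ := Matrix.of fun _ _ => (1 : ℂ)

namespace FIN2

/-- the general bound for `J_k ⊗ M`, real form -/
lemma gen (hGRM : S_GRM) (hJEN : S_JEN) (hHAD : S_HAD) (k m r : ℕ) (M : Matrix (Fin m) (Fin m) ℂ)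
    (hk : 1 ≤ k) (hr : 1 ≤ r) (hM : M.PosSemidef) (hrM : M.rank ≤ r) :
    (M.permanent.im = 0 ∧ 0 ≤ M.permanent.re ∧ (Matrix.kronecker (JJ k) M).permanent.im = 0) ∧
    ((k * m + r - 1)! : ℝ) * ((r - 1)! : ℝ) ^ (k - 1) * M.permanent.re ^ k ≤
      ((m + r - 1)! : ℝ) ^ k * (Matrix.kronecker (JJ k) M).permanent.re := by
  obtain ⟨V, rfl⟩ := hGRM m r M hM hrM
  obtain ⟨him, hre, -, -⟩ := hHAD (Fin m) r r V V
  obtain ⟨him', -, -, -⟩ := hHAD (Fin k × Fin m) r r (fun p => V p.2) (fun p => V p.2)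
  have hK : Matrix.kronecker (JJ k) (gram V) = gram (fun p : Fin k × Fin m => V p.2) := by
    ext p q
    simp [Matrix.kronecker, Matrix.kroneckerMap, gram, JJ]
  rw [hK]
  exact ⟨⟨him, hre, him'⟩, hJEN r m k V hr hk⟩

/-- from a factor `c` to the inequality in `ℂ` -/
lemma out {x y : ℂ} (k : ℕ) (c d : ℝ) (hx : x.im = 0) (hy : y.im = 0) (H : c * x.re ^ k ≤ d * y.re) :
    ((c : ℝ) : ℂ) * x ^ k ≤ ((d : ℝ) : ℂ) * y := by
  rw [MAIN.re_of_im hx, MAIN.re_of_im hy]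
  have := Complex.real_le_real.2 H
  push_cast at this
  exact this

lemma gen' (hGRM : S_GRM) (hJEN : S_JEN) (hHAD : S_HAD) (k m r : ℕ) (M : Matrix (Fin m) (Fin m) ℂ)
    (hk : 1 ≤ k) (hr : 1 ≤ r) (hM : M.PosSemidef) (hrM : M.rank ≤ r) (c : ℝ)
    (hc : c * ((m + r - 1)! : ℝ) ^ k ≤ ((k * m + r - 1)! : ℝ) * ((r - 1)! : ℝ) ^ (k - 1)) :
    ((c : ℝ) : ℂ) * M.permanent ^ k ≤ (Matrix.kronecker (JJ k) M).permanent := by
  obtain ⟨⟨h1, h2, h3⟩, H⟩ := gen hGRM hJEN hHAD k m r M hk hr hM hrM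
  have hF : (0 : ℝ) < ((m + r - 1)! : ℝ) ^ k := by positivity
  have K : c * M.permanent.re ^ k ≤ 1 * (Matrix.kronecker (JJ k) M).permanent.re := by
    rw [one_mul]
    refine le_of_mul_le_mul_left ?_ hF
    calc ((m + r - 1)! : ℝ) ^ k * (c * M.permanent.re ^ k)
        = (c * ((m + r - 1)! : ℝ) ^ k) * M.permanent.re ^ k := by ring
      _ ≤ (((k * m + r - 1)! : ℝ) * ((r - 1)! : ℝ) ^ (k - 1)) * M.permanent.re ^ k :=
          mul_le_mul_of_nonneg_right hc (pow_nonneg h2 k)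
      _ ≤ _ := H
  simpa using out k c 1 h1 h3 K

/-- `m (m+1) ⋯ (m+km-1) ≥ (k!)^m m^(m(k-1)) · m (m+1) ⋯ (2m-1)` -/
lemma asc_mul (m k : ℕ) (hk : 1 ≤ k) : k ! ^ m * (m ^ m) ^ (k - 1) * m.ascFactorial m ≤ m.ascFactorial (k * m) := by
  induction k, hk using Nat.le_induction with
  | base => simp
  | succ k hk ih =>
    obtain ⟨q, rfl⟩ : ∃ q, k = q + 1 := ⟨k - 1, by omega⟩
    have h1 : m.ascFactorial ((q + 1 + 1) * m) =
        m.ascFactorial ((q + 1) * m) * (m + (q + 1) * m).ascFactorial m := by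
      rw [Nat.ascFactorial_mul_ascFactorial]
      congr 1
      ring
    have h2 := Nat.pow_succ_le_ascFactorial (m + (q + 1) * m) m
    rw [h1]
    have h3 : m + (q + 1) * m = (q + 1 + 1) * m := by ring
    rw [h3] at h2 ⊢
    calc (q + 1 + 1)! ^ m * (m ^ m) ^ (q + 1 + 1 - 1) * m.ascFactorial m
        = ((q + 1)! ^ m * (m ^ m) ^ (q + 1 - 1) * m.ascFactorial m) * ((q + 1 + 1) * m) ^ m := by
          rw [Nat.factorial_succ (q + 1)]
          simp only [Nat.add_sub_cancel, mul_pow, pow_succ]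
          ring
      _ ≤ _ := Nat.mul_le_mul ih h2

lemma two_thirds (m k : ℕ) (hk : 1 ≤ k) (hm : 1 ≤ m) :
    (((2 : ℝ) / 3) ^ (m * (k - 1)) * (k ! : ℝ) ^ m) * ((m + m - 1)! : ℝ) ^ k ≤
      ((k * m + m - 1)! : ℝ) * ((m - 1)! : ℝ) ^ (k - 1) := by
  have hm' : (1 : ℝ) ≤ m := by exact_mod_cast hm
  rw [UNI.asc_split m m hm, UNI.asc_split m (k * m) hm]
  have h1 : (m.ascFactorial m : ℝ) ≤ ((3 : ℝ) / 2 * m) ^ m := by
    refine (UNI.asc_le m m hm).trans ?_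
    refine pow_le_pow_left₀ (by linarith) (by linarith) m
  have h2 : ((k ! : ℝ) ^ m * ((m : ℝ) ^ m) ^ (k - 1) * (m.ascFactorial m : ℝ)) ≤ (m.ascFactorial (k * m) : ℝ) := by
    exact_mod_cast asc_mul m k hk
  have h3 : ((2 : ℝ) / 3) ^ (m * (k - 1)) * (m.ascFactorial m : ℝ) ^ (k - 1) ≤ ((m : ℝ) ^ m) ^ (k - 1) := by
    rw [pow_mul, ← mul_pow]
    refine pow_le_pow_left₀ (by positivity) ?_ _
    calc ((2 : ℝ) / 3) ^ m * (m.ascFactorial m : ℝ) ≤ ((2 : ℝ) / 3) ^ m * ((3 : ℝ) / 2 * m) ^ m := by gcongr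
      _ = (m : ℝ) ^ m := by
        rw [← mul_pow]
        congr 1
        ring
  obtain ⟨q, rfl⟩ : ∃ q, k = q + 1 := ⟨k - 1, by omega⟩
  simp only [Nat.add_sub_cancel] at h2 h3 ⊢
  push_cast
  calc ((2 : ℝ) / 3) ^ (m * q) * ((q + 1)! : ℝ) ^ m * (((m - 1)! : ℝ) * (m.ascFactorial m : ℝ)) ^ (q + 1)
      = ((m - 1)! : ℝ) ^ (q + 1) * (((q + 1)! : ℝ) ^ m * (((2 : ℝ) / 3) ^ (m * q) * (m.ascFactorial m : ℝ) ^ q) *
          (m.ascFactorial m : ℝ)) := by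
        rw [mul_pow, pow_succ (m.ascFactorial m : ℝ) q]; ring
    _ ≤ ((m - 1)! : ℝ) ^ (q + 1) * (((q + 1)! : ℝ) ^ m * (((m : ℝ) ^ m) ^ q) * (m.ascFactorial m : ℝ)) := by
        gcongr
    _ ≤ ((m - 1)! : ℝ) ^ (q + 1) * (m.ascFactorial ((q + 1) * m) : ℝ) := by gcongr
    _ = _ := by rw [pow_succ]; ring

end FIN2

end Pool.Agent.T2H42.PJ
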