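import Pool.Agent.T2H42.PJ.Stm2
import Pool.Agent.T2H42.PJ.FIN2
import Pool.Agent.T2H42.PJ.FIN
import Pool.Agent.Results.MP_2dd521_co.TwoByTwo

/-!
Project PJ: the bounds for all positive semidefinite matrices.
-/

set_option autoImplicit false

open MeasureTheory Finset
open scoped Nat ComplexOrder

namespace Pool.Agent.T2H42.PJ

namespace FIN3

/-- from JEN2 and TWO: a factor `c` which passes the arithmetic test -/
lemma bound (hJEN2 : S_JEN2) (hTWO : S_TWO) (hHAD : S_HAD) (k m r : ℕ) (V : Fin m → Fin r → ℂ)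
    (hr : 1 ≤ r) (hk : 2 ≤ k) (hpsd : (gram V).PosSemidef) (c : ℝ)
    (hc : c * ((2 * m + r - 1)! : ℝ) ^ (k - 1) ≤
      (2 : ℝ) ^ (m * (k - 1)) * (((k * m + r - 1)! : ℝ) * ((m + r - 1)! : ℝ) ^ (k - 2))) :
    c * (gram V).permanent.re ^ k ≤ (gram (fun p : Fin k × Fin m => V p.2)).permanent.re := by
  obtain ⟨-, hre, -, -⟩ := hHAD (Fin m) r r V V
  obtain ⟨-, hk0, -, -⟩ := hHAD (Fin k × Fin m) r r (fun p => V p.2) (fun p => V p.2)
  rcases hre.eq_or_lt with h0 | hpos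
  · rw [← h0, zero_pow (by omega), mul_zero]
    exact hk0
  have h2 := hTWO m (gram V) hpsd
  have hK : Matrix.kronecker (Matrix.of fun _ _ : Fin 2 => (1 : ℂ)) (gram V) =
      gram (fun p : Fin 2 × Fin m => V p.2) := by
    ext p q
    simp [Matrix.kronecker, Matrix.kroneckerMap, gram]
  rw [hK] at h2
  have hJ := hJEN2 r m k V hr hk hpos
  set P := (gram V).permanent.re with hP
  set P2 := (gram (fun p : Fin 2 × Fin m => V p.2)).permanent.re with hP2
  set Pk := (gram (fun p : Fin k × Fin m => V p.2)).permanent.re with hPk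
  obtain ⟨q, rfl⟩ : ∃ q, k = q + 2 := ⟨k - 2, by omega⟩
  have e1 : q + 2 - 1 = q + 1 := by omega
  have e2 : q + 2 - 2 = q := by omega
  rw [e1, e2] at hJ hc
  have hb : (0 : ℝ) < ((2 * m + r - 1)! : ℝ) ^ (q + 1) := by positivity
  have hPq : (0 : ℝ) < P ^ q := pow_pos hpos q
  refine le_of_mul_le_mul_left ?_ (mul_pos hb hPq)
  have h3 : ((2 : ℝ) ^ m * P ^ 2) ^ (q + 1) ≤ P2 ^ (q + 1) := pow_le_pow_left₀ (by positivity) h2 _
  calc (((2 * m + r - 1)! : ℝ) ^ (q + 1) * P ^ q) * (c * P ^ (q + 2))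
      = (c * ((2 * m + r - 1)! : ℝ) ^ (q + 1)) * (P ^ q * P ^ (q + 2)) := by ring
    _ ≤ ((2 : ℝ) ^ (m * (q + 1)) * ((((q + 2) * m + r - 1)! : ℝ) * ((m + r - 1)! : ℝ) ^ q)) *
        (P ^ q * P ^ (q + 2)) := by gcongr
    _ = ((((q + 2) * m + r - 1)! : ℝ) * ((m + r - 1)! : ℝ) ^ q) * ((2 : ℝ) ^ m * P ^ 2) ^ (q + 1) := by
        rw [mul_pow, ← pow_mul, ← pow_mul]
        ring
    _ ≤ ((((q + 2) * m + r - 1)! : ℝ) * ((m + r - 1)! : ℝ) ^ q) * P2 ^ (q + 1) := by gcongr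
    _ ≤ _ := hJ

end FIN3

/-- all psd matrices, `J_k ⊗ M` -/
theorem fourFifths (hGRM : S_GRM) (hJEN2 : S_JEN2) (hTWO : S_TWO) (hHAD : S_HAD) (hARIC : S_ARIC)
    (k m : ℕ) (M : Matrix (Fin m) (Fin m) ℂ) (hm : 1 ≤ m) (hk : 2 ≤ k) (hM : M.PosSemidef) :
    ((((4 : ℝ) / 5) ^ (m * (k - 2)) * (k ! : ℝ) ^ m : ℝ) : ℂ) * M.permanent ^ k ≤
      (Matrix.kronecker (JJ k) M).permanent := by
  obtain ⟨V, rfl⟩ := hGRM m m M hM (Matrix.rank_le_card_width M |>.trans (by simp))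
  obtain ⟨him, -, -, -⟩ := hHAD (Fin m) m m V V
  obtain ⟨him', -, -, -⟩ := hHAD (Fin k × Fin m) m m (fun p => V p.2) (fun p => V p.2)
  have hK : Matrix.kronecker (JJ k) (gram V) = gram (fun p : Fin k × Fin m => V p.2) := by
    ext p q
    simp [Matrix.kronecker, Matrix.kroneckerMap, gram, JJ]
  rw [hK]
  have h := FIN3.bound hJEN2 hTWO hHAD k m m V hm hk hM _ (hARIC.1 m k hm hk)
  have := FIN2.out k (((4 : ℝ) / 5) ^ (m * (k - 2)) * (k ! : ℝ) ^ m) 1 him him' (by rw [one_mul]; exact h)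
  rw [Complex.ofReal_one, one_mul] at this
  exact this

/-- all psd matrices, `A ⊗ B` -/
theorem allPsd (hGRM : S_GRM) (hJEN2 : S_JEN2) (hTWO : S_TWO) (hHAD : S_HAD) (hARIC : S_ARIC)
    (n m : ℕ) (A : Matrix (Fin n) (Fin n) ℂ) (B : Matrix (Fin m) (Fin m) ℂ)
    (hA : A.PosSemidef) (hB : B.PosSemidef) :
    ((((16 : ℝ) / (25 * Real.exp 1)) ^ (n * m) : ℝ) : ℂ) * (A.permanent ^ m * B.permanent ^ n) ≤
      (Matrix.kronecker A B).permanent := by
  obtain ⟨a, rfl⟩ := hGRM n n A hA (Matrix.rank_le_card_width A |>.trans (by simp))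
  obtain ⟨b, rfl⟩ := hGRM m m B hB (Matrix.rank_le_card_width B |>.trans (by simp))
  have hk : Matrix.kronecker (gram a) (gram b) =
      had (fun p : Fin n × Fin m => a p.1) (fun p : Fin n × Fin m => b p.2) := by
    ext ⟨i, j⟩ ⟨i', j'⟩
    rfl
  obtain ⟨ha1, ha2, -, -⟩ := hHAD (Fin n) n n a a
  obtain ⟨hb1, hb2, -, -⟩ := hHAD (Fin m) m m b b
  obtain ⟨-, hPA0, hHim, h1⟩ := hHAD (Fin n × Fin m) n m (fun p => a p.1) (fun p => b p.2)
  have hc0 : (0 : ℝ) ≤ (16 : ℝ) / (25 * Real.exp 1) := by positivity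
  have hc1 : (16 : ℝ) / (25 * Real.exp 1) ≤ 1 := by
    rw [div_le_one (by positivity)]
    have := Real.exp_one_gt_d9
    linarith
  by_cases hsmall : n ≤ 2 ∨ m ≤ 2
  · have h := Pool.Agent.Results.MP_2dd521_co.TwoByTwo.result n m _ _ hA hB hsmall
    rw [MAIN.re_of_im ha1, MAIN.re_of_im hb1] at h ⊢
    refine le_trans ?_ h
    have : (((16 : ℝ) / (25 * Real.exp 1)) ^ (n * m)) * ((gram a).permanent.re ^ m * (gram b).permanent.re ^ n) ≤
        (gram a).permanent.re ^ m * (gram b).permanent.re ^ n :=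
      mul_le_of_le_one_left (mul_nonneg (pow_nonneg ha2 _) (pow_nonneg hb2 _)) (pow_le_one₀ hc0 hc1)
    have := Complex.real_le_real.2 this
    push_cast at this ⊢
    exact this
  push Not at hsmall
  obtain ⟨hn, hm⟩ := hsmall
  have hsw : (gram (fun p : Fin m × Fin n => a p.2)).permanent =
      (gram (fun p : Fin n × Fin m => a p.1)).permanent := by
    rw [← MAIN.per_equiv (Equiv.prodComm (Fin m) (Fin n)) (gram (fun p : Fin n × Fin m => a p.1))]
    rfl
  have h2 := FIN3.bound hJEN2 hTWO hHAD m n n a (by omega) (by omega) hA _ (hARIC.2 n m (by omega) (by omega))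
  have h3 := FIN3.bound hJEN2 hTWO hHAD n m m b (by omega) (by omega) hB _ (hARIC.2 m n (by omega) (by omega))
  rw [hsw] at h2
  have hcard : Fintype.card (Fin n × Fin m) = n * m := by simp
  rw [hcard] at h1
  rw [mul_comm m n] at h3
  have hf : ((((n * m : ℕ) : ℝ)) / Real.exp 1) ^ (n * m) ≤ ((n * m)! : ℝ) := UNI.fact_ge (n * m)
  have hN : (0 : ℝ) < ((n * m)! : ℝ) := by positivity
  have hn0 : (0 : ℝ) < n := by exact_mod_cast (show 0 < n by omega)
  have hm0 : (0 : ℝ) < m := by exact_mod_cast (show 0 < m by omega)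
  have hPQ : (0 : ℝ) ≤ (gram a).permanent.re ^ m * (gram b).permanent.re ^ n :=
    mul_nonneg (pow_nonneg ha2 _) (pow_nonneg hb2 _)
  have K : (((16 : ℝ) / (25 * Real.exp 1)) ^ (n * m)) *
      ((gram a).permanent.re ^ m * (gram b).permanent.re ^ n) ≤
      1 * (had (fun p : Fin n × Fin m => a p.1) (fun p : Fin n × Fin m => b p.2)).permanent.re := by
    rw [one_mul]
    refine le_of_mul_le_mul_left ?_ hN
    calc ((n * m)! : ℝ) * ((((16 : ℝ) / (25 * Real.exp 1)) ^ (n * m)) *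
          ((gram a).permanent.re ^ m * (gram b).permanent.re ^ n))
        = ((n * m)! : ℝ) * (((4 : ℝ) / (5 * n)) ^ (n * m) * ((4 : ℝ) / (5 * m)) ^ (n * m)) *
          ((((n * m : ℕ) : ℝ)) / Real.exp 1) ^ (n * m) *
          ((gram a).permanent.re ^ m * (gram b).permanent.re ^ n) := by
          have : ((16 : ℝ) / (25 * Real.exp 1)) = ((4 : ℝ) / (5 * n)) * ((4 : ℝ) / (5 * m)) *
              ((((n * m : ℕ) : ℝ)) / Real.exp 1) := by
            push_cast
            have := Real.exp_pos 1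
            field_simp
            norm_num
          rw [this, mul_pow, mul_pow]
          ring
      _ ≤ ((n * m)! : ℝ) * (((4 : ℝ) / (5 * n)) ^ (n * m) * ((4 : ℝ) / (5 * m)) ^ (n * m)) *
          ((n * m)! : ℝ) * ((gram a).permanent.re ^ m * (gram b).permanent.re ^ n) := by
          gcongr
      _ = ((((n * m)! : ℝ) * ((4 : ℝ) / (5 * n)) ^ (n * m)) * (gram a).permanent.re ^ m) *
          ((((n * m)! : ℝ) * ((4 : ℝ) / (5 * m)) ^ (n * m)) * (gram b).permanent.re ^ n) := by ring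
      _ ≤ (gram (fun p : Fin n × Fin m => a p.1)).permanent.re *
          (gram (fun p : Fin n × Fin m => b p.2)).permanent.re :=
          mul_le_mul h2 h3 (by positivity) hPA0
      _ ≤ _ := h1
  rw [hk]
  have := FIN.to_complex m n _ 1 ha1 hb1 hHim K
  rw [Complex.ofReal_one, one_mul] at this
  exact this

end Pool.Agent.T2H42.PJ
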