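import Pool.Agent.T2H42.PJ.FIN3

/-!
Project PJ: the explicit rank-dependent bounds coming from the case `k = 2`.
-/

set_option autoImplicit false

open MeasureTheory Finset
open scoped Nat ComplexOrder

namespace Pool.Agent.T2H42.PJ

/-- `J_k ⊗ M`, explicit factor -/
theorem explicitK (hGRM : S_GRM) (hJEN2 : S_JEN2) (hTWO : S_TWO) (hHAD : S_HAD)
    (k m r : ℕ) (M : Matrix (Fin m) (Fin m) ℂ) (hr : 1 ≤ r) (hk : 2 ≤ k) (hM : M.PosSemidef) (hrM : M.rank ≤ r) :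
    ((2 ^ (m * (k - 1)) * ((k * m + r - 1)! * (m + r - 1)! ^ (k - 2)) : ℕ) : ℂ) * M.permanent ^ k ≤
      (((2 * m + r - 1)! ^ (k - 1) : ℕ) : ℂ) *
        (Matrix.kronecker (Matrix.of fun _ _ : Fin k => (1 : ℂ)) M).permanent := by
  obtain ⟨V, rfl⟩ := hGRM m r M hM hrM
  obtain ⟨him, -, -, -⟩ := hHAD (Fin m) r r V V
  obtain ⟨him', -, -, -⟩ := hHAD (Fin k × Fin m) r r (fun p => V p.2) (fun p => V p.2)
  have hK : Matrix.kronecker (Matrix.of fun _ _ : Fin k => (1 : ℂ)) (gram V) =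
      gram (fun p : Fin k × Fin m => V p.2) := by
    ext p q
    simp [Matrix.kronecker, Matrix.kroneckerMap, gram]
  rw [hK]
  have hY : (0 : ℝ) < ((2 * m + r - 1)! : ℝ) ^ (k - 1) := by positivity
  have h := FIN3.bound hJEN2 hTWO hHAD k m r V hr hk hM
    ((2 : ℝ) ^ (m * (k - 1)) * (((k * m + r - 1)! : ℝ) * ((m + r - 1)! : ℝ) ^ (k - 2)) /
      ((2 * m + r - 1)! : ℝ) ^ (k - 1)) (by rw [div_mul_cancel₀ _ hY.ne'])
  have K : ((2 : ℝ) ^ (m * (k - 1)) * (((k * m + r - 1)! : ℝ) * ((m + r - 1)! : ℝ) ^ (k - 2))) *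
      (gram V).permanent.re ^ k ≤
      ((2 * m + r - 1)! : ℝ) ^ (k - 1) * (gram (fun p : Fin k × Fin m => V p.2)).permanent.re := by
    have := mul_le_mul_of_nonneg_left h hY.le
    calc _ = ((2 * m + r - 1)! : ℝ) ^ (k - 1) *
          (((2 : ℝ) ^ (m * (k - 1)) * (((k * m + r - 1)! : ℝ) * ((m + r - 1)! : ℝ) ^ (k - 2)) /
          ((2 * m + r - 1)! : ℝ) ^ (k - 1)) * (gram V).permanent.re ^ k) := by
          field_simp
      _ ≤ _ := this
  have := FIN2.out k _ _ him him' K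
  push_cast at this ⊢
  exact this

/-- `A ⊗ B`, explicit factor -/
theorem explicitAB (hGRM : S_GRM) (hJEN2 : S_JEN2) (hTWO : S_TWO) (hHAD : S_HAD)
    (n m r s : ℕ) (A : Matrix (Fin n) (Fin n) ℂ) (B : Matrix (Fin m) (Fin m) ℂ)
    (hn : 2 ≤ n) (hm : 2 ≤ m) (hr : 1 ≤ r) (hs : 1 ≤ s) (hA : A.PosSemidef) (hB : B.PosSemidef)
    (hrA : A.rank ≤ r) (hrB : B.rank ≤ s) :
    ((2 ^ (n * (m - 1)) * ((n * m + r - 1)! * (n + r - 1)! ^ (m - 2)) *
        (2 ^ (m * (n - 1)) * ((n * m + s - 1)! * (m + s - 1)! ^ (n - 2))) : ℕ) : ℂ) *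
        (A.permanent ^ m * B.permanent ^ n) ≤
      (((2 * n + r - 1)! ^ (m - 1) * (2 * m + s - 1)! ^ (n - 1) * (n * m)! : ℕ) : ℂ) *
        (Matrix.kronecker A B).permanent := by
  obtain ⟨a, rfl⟩ := hGRM n r A hA hrA
  obtain ⟨b, rfl⟩ := hGRM m s B hB hrB
  have hk : Matrix.kronecker (gram a) (gram b) =
      had (fun p : Fin n × Fin m => a p.1) (fun p : Fin n × Fin m => b p.2) := by
    ext ⟨i, j⟩ ⟨i', j'⟩
    rfl
  obtain ⟨ha1, ha2, -, -⟩ := hHAD (Fin n) r r a a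
  obtain ⟨hb1, hb2, -, -⟩ := hHAD (Fin m) s s b b
  obtain ⟨-, hPA0, hHim, h1⟩ := hHAD (Fin n × Fin m) r s (fun p => a p.1) (fun p => b p.2)
  have hsw : (gram (fun p : Fin m × Fin n => a p.2)).permanent =
      (gram (fun p : Fin n × Fin m => a p.1)).permanent := by
    rw [← MAIN.per_equiv (Equiv.prodComm (Fin m) (Fin n)) (gram (fun p : Fin n × Fin m => a p.1))]
    rfl
  have hYa : (0 : ℝ) < ((2 * n + r - 1)! : ℝ) ^ (m - 1) := by positivity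
  have hYb : (0 : ℝ) < ((2 * m + s - 1)! : ℝ) ^ (n - 1) := by positivity
  have h2 := FIN3.bound hJEN2 hTWO hHAD m n r a hr hm hA
    ((2 : ℝ) ^ (n * (m - 1)) * (((m * n + r - 1)! : ℝ) * ((n + r - 1)! : ℝ) ^ (m - 2)) /
      ((2 * n + r - 1)! : ℝ) ^ (m - 1)) (by rw [div_mul_cancel₀ _ hYa.ne'])
  have h3 := FIN3.bound hJEN2 hTWO hHAD n m s b hs hn hB
    ((2 : ℝ) ^ (m * (n - 1)) * (((n * m + s - 1)! : ℝ) * ((m + s - 1)! : ℝ) ^ (n - 2)) /
      ((2 * m + s - 1)! : ℝ) ^ (n - 1)) (by rw [div_mul_cancel₀ _ hYb.ne'])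
  rw [hsw, mul_comm m n] at h2
  have hcard : Fintype.card (Fin n × Fin m) = n * m := by simp
  rw [hcard] at h1
  have h2' : ((2 : ℝ) ^ (n * (m - 1)) * (((n * m + r - 1)! : ℝ) * ((n + r - 1)! : ℝ) ^ (m - 2))) *
      (gram a).permanent.re ^ m ≤
      ((2 * n + r - 1)! : ℝ) ^ (m - 1) * (gram (fun p : Fin n × Fin m => a p.1)).permanent.re := by
    have := mul_le_mul_of_nonneg_left h2 hYa.le
    calc _ = ((2 * n + r - 1)! : ℝ) ^ (m - 1) *
          (((2 : ℝ) ^ (n * (m - 1)) * (((n * m + r - 1)! : ℝ) * ((n + r - 1)! : ℝ) ^ (m - 2)) /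
          ((2 * n + r - 1)! : ℝ) ^ (m - 1)) * (gram a).permanent.re ^ m) := by
          field_simp
      _ ≤ _ := this
  have h3' : ((2 : ℝ) ^ (m * (n - 1)) * (((n * m + s - 1)! : ℝ) * ((m + s - 1)! : ℝ) ^ (n - 2))) *
      (gram b).permanent.re ^ n ≤
      ((2 * m + s - 1)! : ℝ) ^ (n - 1) * (gram (fun p : Fin n × Fin m => b p.2)).permanent.re := by
    have := mul_le_mul_of_nonneg_left h3 hYb.le
    calc _ = ((2 * m + s - 1)! : ℝ) ^ (n - 1) *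
          (((2 : ℝ) ^ (m * (n - 1)) * (((n * m + s - 1)! : ℝ) * ((m + s - 1)! : ℝ) ^ (n - 2)) /
          ((2 * m + s - 1)! : ℝ) ^ (n - 1)) * (gram b).permanent.re ^ n) := by
          field_simp
      _ ≤ _ := this
  have K := MAIN2.arith hYa hYb (pow_nonneg ha2 m) (pow_nonneg hb2 n) (by positivity) (by positivity) h1 h2' h3'
  rw [hk]
  have := FIN.to_complex m n _ _ ha1 hb1 hHim K
  push_cast at this ⊢
  exact this

end Pool.Agent.T2H42.PJ
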