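import Pool.Agent.T2H42.PJ.Stm

/-!
# PJ package GRAM: the integral of `ρ^j |∏ ⟨v_i, z⟩|²`
-/

set_option autoImplicit false

open MeasureTheory Finset
open scoped Nat ComplexOrder

namespace Pool.Agent.T2H42.PJ

namespace GRAM

variable {ι : Type} [Fintype ι] [DecidableEq ι] {r : ℕ}

/-- multiplicities -/
def mult (c : ι → Fin r) : Fin r → ℕ := fun x => (univ.filter fun i => c i = x).card

lemma prod_eq (c : ι → Fin r) (z : Fin r → ℂ) : ∏ i, z (c i) = ∏ x, z x ^ mult c x := by
  rw [← Finset.prod_fiberwise univ c]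
  refine Finset.prod_congr rfl fun x _ => ?_
  unfold mult
  rw [← Finset.prod_const]
  refine Finset.prod_congr rfl fun i hi => ?_
  rw [(Finset.mem_filter.1 hi).2]

lemma sum_mult (c : ι → Fin r) : ∑ x, mult c x = Fintype.card ι := by
  unfold mult
  have h := Finset.card_eq_sum_card_fiberwise (f := c) (s := (univ : Finset ι))
    (t := (univ : Finset (Fin r))) (fun _ _ => Finset.mem_coe.2 (mem_univ _))
  rw [← h, Finset.card_univ]

/-- coefficient -/
noncomputable def co (V : ι → Fin r → ℂ) (c : ι → Fin r) : ℂ := ∏ i, V i (c i)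

lemma expand (V : ι → Fin r → ℂ) (z : Fin r → ℂ) :
    ∏ i, lin (V i) z = ∑ c : ι → Fin r, co V c * ∏ i, z (c i) := by
  unfold lin co
  rw [Finset.prod_univ_sum, Fintype.piFinset_univ]
  refine Finset.sum_congr rfl fun c _ => ?_
  rw [Finset.prod_mul_distrib]

lemma mono_eq (c d : ι → Fin r) (z : Fin r → ℂ) :
    (∏ i, z (c i)) * (starRingEnd ℂ) (∏ i, z (d i)) = mono (mult c) (mult d) z := by
  unfold mono
  rw [prod_eq c z, prod_eq d z, map_prod, ← Finset.prod_mul_distrib]
  refine Finset.prod_congr rfl fun x _ => ?_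
  rw [map_pow]

lemma normsq (V : ι → Fin r → ℂ) (z : Fin r → ℂ) (j : ℕ) :
    ((rho z ^ j * ‖∏ i, lin (V i) z‖ ^ 2 : ℝ) : ℂ) =
      ∑ c : ι → Fin r, ∑ d : ι → Fin r, (co V c * (starRingEnd ℂ) (co V d)) *
        (((rho z ^ j : ℝ) : ℂ) * mono (mult c) (mult d) z) := by
  have h1 : ((‖∏ i, lin (V i) z‖ ^ 2 : ℝ) : ℂ) =
      (∏ i, lin (V i) z) * (starRingEnd ℂ) (∏ i, lin (V i) z) := by
    rw [Complex.mul_conj, Complex.normSq_eq_norm_sq]
  rw [Complex.ofReal_mul, h1, expand, map_sum, Finset.sum_mul_sum, Finset.mul_sum]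
  refine Finset.sum_congr rfl fun c _ => ?_
  rw [Finset.mul_sum]
  refine Finset.sum_congr rfl fun d _ => ?_
  rw [← mono_eq, map_mul]
  ring

lemma perm_sum (V : ι → Fin r → ℂ) (σ : Equiv.Perm ι) :
    ∑ c : ι → Fin r, ∑ d : ι → Fin r, (co V c * (starRingEnd ℂ) (co V d)) *
      (if ∀ i, c i = d (σ i) then (1 : ℂ) else 0) = ∏ i, gram V i (σ i) := by
  have h1 : ∀ c : ι → Fin r, ∑ d : ι → Fin r, (co V c * (starRingEnd ℂ) (co V d)) *
      (if ∀ i, c i = d (σ i) then (1 : ℂ) else 0) =
      co V c * (starRingEnd ℂ) (co V (fun i => c (σ.symm i))) := by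
    intro c
    rw [Finset.sum_eq_single (fun i => c (σ.symm i))]
    · rw [if_pos (fun i => by simp), mul_one]
    · intro d _ hd
      rw [if_neg, mul_zero]
      intro h
      apply hd
      funext i
      have := h (σ.symm i)
      rw [Equiv.apply_symm_apply] at this
      exact this.symm
    · intro h
      exact absurd (mem_univ _) h
  rw [Finset.sum_congr rfl fun c _ => h1 c]
  have h2 : ∏ i, gram V i (σ i) = ∑ c : ι → Fin r, ∏ i, (V i (c i) *
      (starRingEnd ℂ) (V (σ i) (c i))) := by
    unfold gram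
    simp only [Matrix.of_apply]
    rw [Finset.prod_univ_sum, Fintype.piFinset_univ]
  rw [h2]
  refine Finset.sum_congr rfl fun c _ => ?_
  rw [Finset.prod_mul_distrib]
  unfold co
  rw [map_prod]
  congr 1
  rw [← Equiv.prod_comp σ]
  refine Finset.prod_congr rfl fun i _ => ?_
  show (starRingEnd ℂ) (V (σ i) (c (σ.symm (σ i)))) = (starRingEnd ℂ) (V (σ i) (c i))
  rw [Equiv.symm_apply_apply]

end GRAM

open GRAM in
theorem pGRAM (hRHO : S_RHO) (hCNT : S_CNT) : S_GRAM := by
  intro ν hν ι _ _ r j V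
  have hI : ∀ c d : ι → Fin r, Integrable (fun z => (co V c * (starRingEnd ℂ) (co V d)) *
      (((rho z ^ j : ℝ) : ℂ) * mono (mult c) (mult d) z)) (G ν r) := by
    intro c d
    exact (hRHO ν hν r j (mult c) (mult d)).1.const_mul _
  have hF : Integrable (fun z => ((rho z ^ j * ‖∏ i, lin (V i) z‖ ^ 2 : ℝ) : ℂ)) (G ν r) := by
    have h := integrable_finset_sum (μ := G ν r) (univ : Finset (ι → Fin r))
      (f := fun c z => ∑ d : ι → Fin r, (co V c * (starRingEnd ℂ) (co V d)) *
        (((rho z ^ j : ℝ) : ℂ) * mono (mult c) (mult d) z))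
      (fun c _ => integrable_finset_sum _ fun d _ => hI c d)
    refine h.congr (Filter.Eventually.of_forall fun z => ?_)
    exact (normsq V z j).symm
  refine ⟨?_, ?_⟩
  · have h := hF.re
    refine h.congr (Filter.Eventually.of_forall fun z => ?_)
    exact Complex.ofReal_re _
  · rw [← integral_complex_ofReal]
    have h1 : ∫ z, ((rho z ^ j * ‖∏ i, lin (V i) z‖ ^ 2 : ℝ) : ℂ) ∂(G ν r) =
        ∑ c : ι → Fin r, ∑ d : ι → Fin r, (co V c * (starRingEnd ℂ) (co V d)) *
          (if mult c = mult d then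
            (((∏ x, (mult c x)!) * (∑ x, mult c x + r).ascFactorial j : ℕ) : ℂ) else 0) := by
      rw [integral_congr_ae (Filter.Eventually.of_forall fun z => normsq V z j),
        integral_finset_sum _ fun c _ => integrable_finset_sum _ fun d _ => hI c d]
      refine Finset.sum_congr rfl fun c _ => ?_
      rw [integral_finset_sum _ fun d _ => hI c d]
      refine Finset.sum_congr rfl fun d _ => ?_
      rw [integral_const_mul, (hRHO ν hν r j (mult c) (mult d)).2]
    rw [h1]
    have h2 : ∀ c d : ι → Fin r, (co V c * (starRingEnd ℂ) (co V d)) *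
          (if mult c = mult d then
            (((∏ x, (mult c x)!) * (∑ x, mult c x + r).ascFactorial j : ℕ) : ℂ) else 0) =
        ((Fintype.card ι + r).ascFactorial j : ℂ) * ∑ σ : Equiv.Perm ι,
          (co V c * (starRingEnd ℂ) (co V d)) * (if ∀ i, c i = d (σ i) then (1 : ℂ) else 0) := by
      intro c d
      have h3 := hCNT ι r c d
      have h4 : (∑ σ : Equiv.Perm ι, (if ∀ i, c i = d (σ i) then (1 : ℂ) else 0)) =
          (((univ.filter fun σ : Equiv.Perm ι => ∀ i, c i = d (σ i)).card : ℕ) : ℂ) := by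
        rw [Finset.sum_ite, Finset.sum_const_zero, add_zero, Finset.sum_const, nsmul_eq_mul,
          mul_one]
      rw [← Finset.mul_sum, h4, h3, sum_mult]
      by_cases h : mult c = mult d
      · rw [if_pos h, if_pos (show (fun x => (univ.filter fun i => c i = x).card) =
          (fun x => (univ.filter fun i => d i = x).card) from h)]
        unfold mult
        push_cast
        ring
      · rw [if_neg h, if_neg (show ¬ (fun x => (univ.filter fun i => c i = x).card) =
          (fun x => (univ.filter fun i => d i = x).card) from h)]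
        push_cast
        ring
    rw [Finset.sum_congr rfl fun c _ => Finset.sum_congr rfl fun d _ => h2 c d]
    have h5 : ∑ c : ι → Fin r, ∑ d : ι → Fin r, ((Fintype.card ι + r).ascFactorial j : ℂ) *
        ∑ σ : Equiv.Perm ι, (co V c * (starRingEnd ℂ) (co V d)) *
          (if ∀ i, c i = d (σ i) then (1 : ℂ) else 0) =
        ((Fintype.card ι + r).ascFactorial j : ℂ) * ∑ σ : Equiv.Perm ι, ∏ i, gram V i (σ i) := by
      have e1 : ∑ σ : Equiv.Perm ι, ∏ i, gram V i (σ i) =
          ∑ σ : Equiv.Perm ι, ∑ c : ι → Fin r, ∑ d : ι → Fin r,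
            (co V c * (starRingEnd ℂ) (co V d)) * (if ∀ i, c i = d (σ i) then (1 : ℂ) else 0) :=
        Finset.sum_congr rfl fun σ _ => (perm_sum V σ).symm
      have e2 : ∑ σ : Equiv.Perm ι, ∑ c : ι → Fin r, ∑ d : ι → Fin r,
            (co V c * (starRingEnd ℂ) (co V d)) * (if ∀ i, c i = d (σ i) then (1 : ℂ) else 0) =
          ∑ c : ι → Fin r, ∑ d : ι → Fin r, ∑ σ : Equiv.Perm ι,
            (co V c * (starRingEnd ℂ) (co V d)) *
              (if ∀ i, c i = d (σ i) then (1 : ℂ) else 0) := by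
        rw [Finset.sum_comm]
        refine Finset.sum_congr rfl fun c _ => ?_
        rw [Finset.sum_comm]
      rw [e1, e2, Finset.mul_sum]
      refine Finset.sum_congr rfl fun c _ => ?_
      rw [Finset.mul_sum]
    rw [h5]
    congr 1
    unfold Matrix.permanent
    rw [← Equiv.sum_comp (Equiv.inv (Equiv.Perm ι))]
    refine Finset.sum_congr rfl fun σ _ => ?_
    simp only [Equiv.inv_apply]
    rw [← Equiv.prod_comp σ]
    refine Finset.prod_congr rfl fun i _ => ?_
    simp

end Pool.Agent.T2H42.PJ
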