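import Pool.Agent.T2H42.PJ.Stm

set_option autoImplicit false

open MeasureTheory Finset
open scoped Nat ComplexOrder

namespace Pool.Agent.T2H42.PJ

namespace GRM

open Matrix

theorem entry {m : ℕ} (M : Matrix (Fin m) (Fin m) ℂ) (hM : M.PosSemidef) (i l : Fin m) :
    M i l = ∑ k, ((hM.1.eigenvectorUnitary : Matrix (Fin m) (Fin m) ℂ) i k) *
      ((hM.1.eigenvalues k : ℝ) : ℂ) *
      (starRingEnd ℂ) ((hM.1.eigenvectorUnitary : Matrix (Fin m) (Fin m) ℂ) l k) := by
  have h := congrFun (congrFun hM.1.spectral_theorem i) l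
  rw [Unitary.conjStarAlgAut_apply, Matrix.mul_apply] at h
  rw [h]
  refine Finset.sum_congr rfl fun k _ => ?_
  rw [Matrix.mul_diagonal]
  rfl

end GRM

open GRM in
theorem pGRM : S_GRM := by
  intro m r M hM hr
  rw [hM.1.rank_eq_card_non_zero_eigs] at hr
  obtain ⟨e⟩ : Nonempty ({k : Fin m // hM.1.eigenvalues k ≠ 0} ↪ Fin r) := by
    apply Function.Embedding.nonempty_of_card_le
    simpa using hr
  set U : Matrix (Fin m) (Fin m) ℂ := (hM.1.eigenvectorUnitary : Matrix (Fin m) (Fin m) ℂ) with hU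
  refine ⟨fun i => Function.extend e (fun k => ((Real.sqrt (hM.1.eigenvalues k) : ℝ) : ℂ) * U i k) 0, ?_⟩
  ext i l
  rw [entry M hM i l]
  unfold gram
  rw [Matrix.of_apply]
  have h1 : ∑ k : {k : Fin m // hM.1.eigenvalues k ≠ 0},
      U i k * ((hM.1.eigenvalues k : ℝ) : ℂ) * (starRingEnd ℂ) (U l k) =
      ∑ c, Function.extend e (fun k => ((Real.sqrt (hM.1.eigenvalues k) : ℝ) : ℂ) * U i k) 0 c *
        (starRingEnd ℂ) (Function.extend e (fun k => ((Real.sqrt (hM.1.eigenvalues k) : ℝ) : ℂ) * U l k) 0 c) := by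
    refine Fintype.sum_of_injective e e.injective _ _ ?_ ?_
    · intro c hc
      have hc' : ¬ ∃ a, e a = c := fun ⟨a, ha⟩ => hc ⟨a, ha⟩
      rw [Function.extend_apply' _ _ _ hc']
      simp
    · intro k
      rw [e.injective.extend_apply, e.injective.extend_apply, map_mul, Complex.conj_ofReal]
      have hs : ((Real.sqrt (hM.1.eigenvalues k) : ℝ) : ℂ) * ((Real.sqrt (hM.1.eigenvalues k) : ℝ) : ℂ) =
          ((hM.1.eigenvalues k : ℝ) : ℂ) := by
        rw [← Complex.ofReal_mul, Real.mul_self_sqrt (hM.eigenvalues_nonneg k)]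
      rw [← hs]; ring
  rw [← h1]
  symm
  refine Fintype.sum_of_injective Subtype.val Subtype.val_injective _ _ ?_ ?_
  · intro c hc
    have : hM.1.eigenvalues c = 0 := by
      by_contra h
      exact hc ⟨⟨c, h⟩, rfl⟩
    rw [this]; simp
  · intro k; rfl

end Pool.Agent.T2H42.PJ
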