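import Pool.Agent.T2H42.PJ.Stm

/-! Package HAD of project PJ (helper42), by helper94. -/

set_option autoImplicit false

open MeasureTheory Finset
open scoped Nat ComplexOrder

namespace Pool.Agent.T2H42.PJ

namespace HAD

lemma key (z : ℂ) : ((‖z‖ ^ 2 : ℝ) : ℂ) = z * (starRingEnd ℂ) z := by
  rw [Complex.mul_conj, Complex.normSq_eq_norm_sq]

lemma sumS {ι κ : Type} [Fintype ι] [DecidableEq ι] [Fintype κ] (w : ι → κ → ℂ)
    (g : Matrix ι ι ℂ) (hg : ∀ i l, g i l = ∑ x, w i x * (starRingEnd ℂ) (w l x)) :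
    ((∑ c : ι → κ, ‖∑ σ : Equiv.Perm ι, ∏ j, w (σ j) (c j)‖ ^ 2 : ℝ) : ℂ) =
      ((Fintype.card ι)! : ℂ) * g.permanent := by
  classical
  rw [Complex.ofReal_sum]
  simp only [key]
  have h1 : ∀ c : ι → κ, (∑ σ : Equiv.Perm ι, ∏ j, w (σ j) (c j)) *
      (starRingEnd ℂ) (∑ σ : Equiv.Perm ι, ∏ j, w (σ j) (c j)) =
      ∑ σ : Equiv.Perm ι, ∑ τ : Equiv.Perm ι, ∏ j, (w (σ j) (c j) *
        (starRingEnd ℂ) (w (τ j) (c j))) := by
    intro c
    rw [map_sum, Finset.sum_mul_sum]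
    refine Finset.sum_congr rfl fun σ _ => Finset.sum_congr rfl fun τ _ => ?_
    rw [map_prod, ← Finset.prod_mul_distrib]
  rw [Finset.sum_congr rfl fun c _ => h1 c, Finset.sum_comm]
  have h2 : ∀ σ : Equiv.Perm ι, ∑ c : ι → κ, ∑ τ : Equiv.Perm ι, ∏ j, (w (σ j) (c j) *
        (starRingEnd ℂ) (w (τ j) (c j))) = ∑ τ : Equiv.Perm ι, ∏ j, g (σ j) (τ j) := by
    intro σ
    rw [Finset.sum_comm]
    refine Finset.sum_congr rfl fun τ _ => ?_
    have h3 : ∀ j, g (σ j) (τ j) = ∑ x ∈ (Finset.univ : Finset κ),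
      w (σ j) x * (starRingEnd ℂ) (w (τ j) x) := fun j => hg _ _
    rw [Finset.prod_congr rfl fun j _ => h3 j, Finset.prod_univ_sum, Fintype.piFinset_univ]
  rw [Finset.sum_congr rfl fun σ _ => h2 σ, Finset.sum_comm]
  have h4 : ∀ τ : Equiv.Perm ι, ∑ σ : Equiv.Perm ι, ∏ j, g (σ j) (τ j) = g.permanent := by
    intro τ
    rw [Matrix.permanent, ← Equiv.sum_comp (Equiv.mulRight τ)]
    refine Finset.sum_congr rfl fun σ _ => ?_
    rw [← Equiv.prod_comp τ (fun i => g (σ i) i)]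
    rfl
  rw [Finset.sum_congr rfl fun τ _ => h4 τ, Finset.sum_const, Finset.card_univ,
    Fintype.card_perm, nsmul_eq_mul]

lemma real_of {N : ℕ} {S : ℝ} (hS : 0 ≤ S) {p : ℂ} (h : (S : ℂ) = (N ! : ℂ) * p) :
    p.im = 0 ∧ 0 ≤ p.re ∧ S = (N ! : ℝ) * p.re := by
  have hN : (0 : ℝ) < (N ! : ℝ) := by exact_mod_cast Nat.factorial_pos N
  have h1 : (N ! : ℂ) = ((N ! : ℝ) : ℂ) := by push_cast; rfl
  rw [h1] at h
  have hre := congrArg Complex.re h
  have him := congrArg Complex.im h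
  rw [Complex.ofReal_re, Complex.re_ofReal_mul] at hre
  rw [Complex.ofReal_im, Complex.im_ofReal_mul] at him
  refine ⟨(mul_eq_zero.mp him.symm).resolve_left hN.ne', ?_, hre⟩
  rw [hre] at hS
  exact (mul_nonneg_iff_of_pos_left hN).mp hS

end HAD

open HAD in
theorem pHAD : S_HAD := by
  classical
  intro ι _ _ r s a b
  have eA := sumS a (gram a) (fun i l => rfl)
  have eB := sumS b (gram b) (fun i l => rfl)
  have eH := sumS (fun i (x : Fin r × Fin s) => a i x.1 * b i x.2) (had a b) (by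
    intro i l
    rw [had, Matrix.of_apply, gram, gram, Matrix.of_apply, Matrix.of_apply, Finset.sum_mul_sum,
      Fintype.sum_prod_type]
    refine Finset.sum_congr rfl fun x _ => Finset.sum_congr rfl fun y _ => ?_
    simp only [map_mul]
    ring)
  obtain ⟨ai, ar, aS⟩ := real_of (by positivity) eA
  obtain ⟨bi, br, bS⟩ := real_of (by positivity) eB
  obtain ⟨hi, hr, hS⟩ := real_of (by positivity) eH
  refine ⟨ai, ar, hi, ?_⟩
  set n := Fintype.card ι with hn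
  have hN : (0 : ℝ) < (n ! : ℝ) := by exact_mod_cast Nat.factorial_pos n
  set SS : (ι → Fin r) → (ι → Fin s) → ℂ := fun c d =>
    ∑ σ : Equiv.Perm ι, ∏ j, (a (σ j) (c j) * b (σ j) (d j)) with hSS
  have hcard : (Finset.univ : Finset (Equiv.Perm ι)).card = n ! := by
    rw [Finset.card_univ, Fintype.card_perm]
  -- the product of the two sums
  have hU : ∀ (c : ι → Fin r) (d : ι → Fin s),
      (∑ σ : Equiv.Perm ι, ∏ j, a (σ j) (c j)) * (∑ σ : Equiv.Perm ι, ∏ j, b (σ j) (d j)) =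
      ∑ ρ : Equiv.Perm ι, SS (c ∘ ρ) d := by
    intro c d
    rw [Finset.sum_mul_sum, Finset.sum_comm, hSS]
    simp only
    rw [Finset.sum_comm]
    symm
    rw [Finset.sum_comm]
    symm
    rw [Finset.sum_comm]
    refine Finset.sum_congr rfl fun τ _ => ?_
    rw [← Equiv.sum_comp ((Equiv.inv (Equiv.Perm ι)).trans (Equiv.mulLeft τ))]
    refine Finset.sum_congr rfl fun ρ _ => ?_
    rw [Finset.prod_mul_distrib]
    congr 1
    rw [← Equiv.prod_comp ρ]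
    refine Finset.prod_congr rfl fun j _ => ?_
    simp
  have hCS : ∀ (c : ι → Fin r) (d : ι → Fin s),
      ‖∑ σ : Equiv.Perm ι, ∏ j, a (σ j) (c j)‖ ^ 2 * ‖∑ σ : Equiv.Perm ι, ∏ j, b (σ j) (d j)‖ ^ 2 ≤
      (n ! : ℝ) * ∑ ρ : Equiv.Perm ι, ‖SS (c ∘ ρ) d‖ ^ 2 := by
    intro c d
    rw [← mul_pow, ← norm_mul, hU]
    have h1 : ‖∑ ρ : Equiv.Perm ι, SS (c ∘ ρ) d‖ ^ 2 ≤ (∑ ρ : Equiv.Perm ι, ‖SS (c ∘ ρ) d‖) ^ 2 :=
      pow_le_pow_left₀ (norm_nonneg _) (norm_sum_le _ _) 2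
    refine h1.trans ?_
    have h2 := sq_sum_le_card_mul_sum_sq (s := (Finset.univ : Finset (Equiv.Perm ι)))
      (f := fun ρ => ‖SS (c ∘ ρ) d‖)
    rw [hcard] at h2
    exact h2
  have hsum : (∑ c : ι → Fin r, ‖∑ σ : Equiv.Perm ι, ∏ j, a (σ j) (c j)‖ ^ 2) *
      (∑ d : ι → Fin s, ‖∑ σ : Equiv.Perm ι, ∏ j, b (σ j) (d j)‖ ^ 2) ≤
      (n ! : ℝ) * ((n ! : ℝ) * ∑ c : ι → Fin r, ∑ d : ι → Fin s, ‖SS c d‖ ^ 2) := by
    rw [Finset.sum_mul_sum]
    calc _ ≤ ∑ c : ι → Fin r, ∑ d : ι → Fin s,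
          (n ! : ℝ) * ∑ ρ : Equiv.Perm ι, ‖SS (c ∘ ρ) d‖ ^ 2 :=
          Finset.sum_le_sum fun c _ => Finset.sum_le_sum fun d _ => hCS c d
      _ = (n ! : ℝ) * ∑ ρ : Equiv.Perm ι, ∑ c : ι → Fin r, ∑ d : ι → Fin s,
          ‖SS (c ∘ ρ) d‖ ^ 2 := by
          simp only [← Finset.mul_sum]
          congr 1
          have h6 : ∀ c : ι → Fin r, ∑ d : ι → Fin s, ∑ ρ : Equiv.Perm ι, ‖SS (c ∘ ρ) d‖ ^ 2 =
              ∑ ρ : Equiv.Perm ι, ∑ d : ι → Fin s, ‖SS (c ∘ ρ) d‖ ^ 2 :=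
            fun c => Finset.sum_comm
          rw [Finset.sum_congr rfl fun c _ => h6 c, Finset.sum_comm]
      _ = _ := by
          congr 1
          have h3 : ∀ ρ : Equiv.Perm ι, ∑ c : ι → Fin r, ∑ d : ι → Fin s,
              ‖SS (c ∘ ρ) d‖ ^ 2 = ∑ c : ι → Fin r, ∑ d : ι → Fin s, ‖SS c d‖ ^ 2 := by
            intro ρ
            exact Equiv.sum_comp (Equiv.arrowCongr ρ.symm (Equiv.refl (Fin r)))
              (fun c => ∑ d : ι → Fin s, ‖SS c d‖ ^ 2)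
          rw [Finset.sum_congr rfl fun ρ _ => h3 ρ, Finset.sum_const, hcard, nsmul_eq_mul]
  have hpair : ∑ c : ι → Fin r, ∑ d : ι → Fin s, ‖SS c d‖ ^ 2 =
      ∑ e : ι → Fin r × Fin s, ‖∑ σ : Equiv.Perm ι, ∏ j, (a (σ j) (e j).1 * b (σ j) (e j).2)‖ ^ 2 := by
    have h7 := (Equiv.arrowProdEquivProdArrow ι (fun _ => Fin r) (fun _ => Fin s)).sum_comp
      (fun p => ‖SS p.1 p.2‖ ^ 2)
    rw [Fintype.sum_prod_type] at h7
    rw [← h7]
    rfl
  rw [hpair, hS, aS, bS] at hsum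
  have h5 : (n ! : ℝ) ^ 2 * ((gram a).permanent.re * (gram b).permanent.re) ≤
      (n ! : ℝ) ^ 2 * ((n ! : ℝ) * (had a b).permanent.re) := by nlinarith
  exact le_of_mul_le_mul_left h5 (by positivity)

end Pool.Agent.T2H42.PJ
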