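import Pool.Agent.T2H42.PJ.Stm

/-! # Package JEN of project PJ: the tangent line inequality for the squared modulus of a product
of linear forms -/

set_option autoImplicit false

open MeasureTheory Finset
open scoped Nat ComplexOrder

namespace Pool.Agent.T2H42.PJ

namespace JEN

lemma tangent (k : ℕ) {x t : ℝ} (hx : 0 ≤ x) (ht : 0 ≤ t) :
    ((k : ℝ) + 1) * t ^ k * x - k * t ^ (k + 1) ≤ x ^ (k + 1) := by
  induction k with
  | zero => simp
  | succ k ih =>
    have h1 : x * (((k : ℝ) + 1) * t ^ k * x - k * t ^ (k + 1)) ≤ x * x ^ (k + 1) :=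
      mul_le_mul_of_nonneg_left ih hx
    have h2 : 0 ≤ ((k : ℝ) + 1) * t ^ k * (x - t) ^ 2 := by positivity
    have h3 : x ^ (k + 1 + 1) = x * x ^ (k + 1) := by ring
    have h4 : ((k + 1 : ℕ) : ℝ) = (k : ℝ) + 1 := by push_cast; ring
    rw [h3, h4]
    have h5 : ((k : ℝ) + 1 + 1) * t ^ (k + 1) * x - ((k : ℝ) + 1) * t ^ (k + 1 + 1) =
        x * (((k : ℝ) + 1) * t ^ k * x - k * t ^ (k + 1)) - ((k : ℝ) + 1) * t ^ k * (x - t) ^ 2 := by
      ring
    linarith

lemma asc1 (m r k : ℕ) (hr : 1 ≤ r) :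
    ((m + r - 1)! : ℝ) * ((m + r).ascFactorial (m * k) : ℝ) = (((k + 1) * m + r - 1)! : ℝ) := by
  obtain ⟨q, rfl⟩ := Nat.exists_eq_add_of_le' hr
  have h := Nat.factorial_mul_ascFactorial (m + q) (m * k)
  have e1 : m + (q + 1) - 1 = m + q := by omega
  have e2 : (k + 1) * m + (q + 1) - 1 = m + q + m * k := by
    have : (k + 1) * m = m * k + m := by ring
    omega
  rw [e1, e2, ← h]
  push_cast
  rfl

lemma asc0 (m r k : ℕ) (hr : 1 ≤ r) :
    ((r - 1)! : ℝ) * (r.ascFactorial (m * (k + 1)) : ℝ) = (((k + 1) * m + r - 1)! : ℝ) := by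
  obtain ⟨q, rfl⟩ := Nat.exists_eq_add_of_le' hr
  have h := Nat.factorial_mul_ascFactorial q (m * (k + 1))
  have e1 : q + 1 - 1 = q := by omega
  have e2 : (k + 1) * m + (q + 1) - 1 = q + m * (k + 1) := by
    have : (k + 1) * m = m * (k + 1) := by ring
    omega
  rw [e1, e2, ← h]
  push_cast
  rfl

end JEN

open JEN in
theorem pJEN (hGAU : S_GAU) (hGRAM : S_GRAM) : S_JEN := by
  intro r m k' V hr hk
  obtain ⟨k, rfl⟩ := Nat.exists_eq_add_of_le' hk
  obtain ⟨ν, hν⟩ := hGAU
  haveI := hν.1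
  set P : (Fin r → ℂ) → ℝ := fun z => ‖∏ i, lin (V i) z‖ ^ 2 with hP
  set B : ℝ := (((k + 1) * m + r - 1)! : ℝ) with hB
  set f0 : ℝ := ((r - 1)! : ℝ) with hf0
  set f1 : ℝ := ((m + r - 1)! : ℝ) with hf1
  have hf0p : 0 < f0 := by rw [hf0]; exact_mod_cast Nat.factorial_pos _
  have hf1p : 0 < f1 := by rw [hf1]; exact_mod_cast Nat.factorial_pos _
  have hBp : 0 < B := by rw [hB]; exact_mod_cast Nat.factorial_pos _
  -- the integral of P
  obtain ⟨hi0, he0⟩ := hGRAM ν hν (Fin m) r 0 V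
  simp only [pow_zero, one_mul, Nat.ascFactorial_zero, Nat.cast_one] at hi0 he0
  set u : ℝ := ∫ z, P z ∂(G ν r) with hu
  have hu0 : 0 ≤ u := integral_nonneg fun z => by positivity
  have hure : (gram V).permanent.re = u := by
    have := congrArg Complex.re he0
    rw [Complex.ofReal_re] at this
    rw [← this]
  -- the weighted integral of P
  obtain ⟨hi1, he1⟩ := hGRAM ν hν (Fin m) r (m * k) V
  rw [← he0, Fintype.card_fin] at he1
  have he1' : ∫ z, rho z ^ (m * k) * P z ∂(G ν r) = ((m + r).ascFactorial (m * k) : ℝ) * u := by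
    exact_mod_cast he1
  -- the moments of rho
  obtain ⟨hi2, he2⟩ := hGRAM ν hν (Fin 0) r (m * (k + 1)) (fun i => i.elim0)
  have he2' : ∫ z, rho z ^ (m * (k + 1)) ∂(G ν r) = (r.ascFactorial (m * (k + 1)) : ℝ) := by
    simp only [Finset.univ_eq_empty, Finset.prod_empty, norm_one, one_pow, mul_one,
      Fintype.card_fin, Nat.zero_add, Matrix.permanent_isEmpty] at he2
    exact_mod_cast he2
  have hi2' : Integrable (fun z => rho z ^ (m * (k + 1))) (G ν r) := by
    simpa only [Finset.univ_eq_empty, Finset.prod_empty, norm_one, one_pow, mul_one] using hi2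
  -- the integral of the power of P
  obtain ⟨hi3, he3⟩ := hGRAM ν hν (Fin (k + 1) × Fin m) r 0 (fun p => V p.2)
  simp only [pow_zero, one_mul, Nat.ascFactorial_zero, Nat.cast_one] at hi3 he3
  have hpow : ∀ z, ‖∏ p : Fin (k + 1) × Fin m, lin (V p.2) z‖ ^ 2 = P z ^ (k + 1) := by
    intro z
    rw [Fintype.prod_prod_type]
    simp only [Finset.prod_const, Finset.card_univ, Fintype.card_fin]
    rw [norm_pow, hP]
    simp only
    rw [← pow_mul, ← pow_mul, mul_comm]
  simp only [hpow] at hi3 he3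
  have hWre : (gram (fun p : Fin (k + 1) × Fin m => V p.2)).permanent.re =
      ∫ z, P z ^ (k + 1) ∂(G ν r) := by
    have := congrArg Complex.re he3
    rw [Complex.ofReal_re] at this
    rw [← this]
  rw [hure, hWre]
  -- the pointwise inequality
  set s : ℝ := u * f0 / f1 with hs
  have hs0 : 0 ≤ s := by positivity
  have hpt : ∀ z : Fin r → ℂ,
      ((k : ℝ) + 1) * s ^ k * (rho z ^ (m * k) * P z) - k * s ^ (k + 1) * rho z ^ (m * (k + 1)) ≤
        P z ^ (k + 1) := by
    intro z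
    have hρ : 0 ≤ rho z := Finset.sum_nonneg fun c _ => by positivity
    have h := tangent k (x := P z) (t := s * rho z ^ m) (by positivity) (by positivity)
    refine le_trans (le_of_eq ?_) h
    rw [mul_pow, mul_pow, ← pow_mul, ← pow_mul]
    ring
  have hint := integral_mono
    ((hi1.const_mul (((k : ℝ) + 1) * s ^ k)).sub (hi2'.const_mul ((k : ℝ) * s ^ (k + 1)))) hi3 hpt
  have hsub := integral_sub (hi1.const_mul (((k : ℝ) + 1) * s ^ k))
    (hi2'.const_mul ((k : ℝ) * s ^ (k + 1)))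
  have hint2 : ((k : ℝ) + 1) * s ^ k * (((m + r).ascFactorial (m * k) : ℝ) * u) -
      (k : ℝ) * s ^ (k + 1) * (r.ascFactorial (m * (k + 1)) : ℝ) ≤
        ∫ z, P z ^ (k + 1) ∂(G ν r) := by
    refine le_trans (le_of_eq ?_) hint
    rw [← he1', ← he2', ← integral_const_mul, ← integral_const_mul]
    exact hsub.symm
  have ha1 := asc1 m r k hr
  have ha0 := asc0 m r k hr
  rw [← hf1, ← hB] at ha1
  rw [← hf0, ← hB] at ha0
  have ha1' : ((m + r).ascFactorial (m * k) : ℝ) * u = B * s / f0 := by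
    rw [← ha1, hs]
    field_simp
  have ha0' : (r.ascFactorial (m * (k + 1)) : ℝ) = B / f0 := by
    rw [← ha0]
    field_simp
  rw [ha1', ha0'] at hint2
  have hkey : B / f0 * s ^ (k + 1) ≤ ∫ z, P z ^ (k + 1) ∂(G ν r) := by
    refine le_trans (le_of_eq ?_) hint2
    rw [pow_succ]
    ring
  have hfin : B * f0 ^ (k + 1 - 1) * u ^ (k + 1) = f1 ^ (k + 1) * (B / f0 * s ^ (k + 1)) := by
    rw [hs, Nat.add_sub_cancel, div_pow, mul_pow]
    field_simp
    ring
  rw [hfin]
  exact mul_le_mul_of_nonneg_left hkey (by positivity)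

end Pool.Agent.T2H42.PJ
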