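import Pool.Agent.T2H42.PJ.Stm2

/-!
# PJ package JEN2: the bound from the case `k = 2`
-/

set_option autoImplicit false

open MeasureTheory Finset
open scoped Nat ComplexOrder

namespace Pool.Agent.T2H42.PJ

namespace JEN2

lemma tangent (j : ℕ) (x t : ℝ) (hx : 0 ≤ x) (ht : 0 ≤ t) :
    ((j : ℝ) + 1) * t ^ j * x ^ 2 - (j : ℝ) * t ^ (j + 1) * x ≤ x ^ (j + 2) := by
  induction j with
  | zero => simp
  | succ j ih =>
    have h1 := mul_le_mul_of_nonneg_right ih hx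
    have h2 : 0 ≤ ((j : ℝ) + 1) * t ^ j * x * (x - t) ^ 2 := by positivity
    have h3 : (((j + 1 : ℕ) : ℝ) + 1) * t ^ (j + 1) * x ^ 2 -
        ((j + 1 : ℕ) : ℝ) * t ^ (j + 1 + 1) * x =
        (((j : ℝ) + 1) * t ^ j * x ^ 2 - (j : ℝ) * t ^ (j + 1) * x) * x -
          ((j : ℝ) + 1) * t ^ j * x * (x - t) ^ 2 := by
      push_cast
      ring
    have h4 : x ^ (j + 1 + 2) = x ^ (j + 2) * x := by ring
    rw [h3, h4]
    linarith

lemma prod_pow {m r : ℕ} (k : ℕ) (V : Fin m → Fin r → ℂ) (z : Fin r → ℂ) :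
    ‖∏ i : Fin k × Fin m, lin (V i.2) z‖ ^ 2 = (‖∏ i, lin (V i) z‖ ^ 2) ^ k := by
  rw [Fintype.prod_prod_type]
  simp only [Finset.prod_const, Finset.card_univ, Fintype.card_fin]
  rw [norm_pow, ← pow_mul, ← pow_mul, mul_comm]

lemma mom (hGRAM : S_GRAM) (ν : Measure ℂ) (hν : Gs ν) (r m k j : ℕ) (V : Fin m → Fin r → ℂ) :
    Integrable (fun z => rho z ^ j * (‖∏ i, lin (V i) z‖ ^ 2) ^ k) (G ν r) ∧
    ∫ z, rho z ^ j * (‖∏ i, lin (V i) z‖ ^ 2) ^ k ∂(G ν r) =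
      ((k * m + r).ascFactorial j : ℝ) *
        (gram (fun p : Fin k × Fin m => V p.2)).permanent.re := by
  obtain ⟨h1, h2⟩ := hGRAM ν hν (Fin k × Fin m) r j (fun p => V p.2)
  simp only [prod_pow] at h1 h2
  refine ⟨h1, ?_⟩
  have h3 := congrArg Complex.re h2
  rw [Complex.ofReal_re, Complex.mul_re, Complex.natCast_re, Complex.natCast_im, zero_mul,
    sub_zero, Fintype.card_prod, Fintype.card_fin, Fintype.card_fin] at h3
  exact h3

lemma mom1 (hGRAM : S_GRAM) (ν : Measure ℂ) (hν : Gs ν) (r m j : ℕ) (V : Fin m → Fin r → ℂ) :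
    Integrable (fun z => rho z ^ j * ‖∏ i, lin (V i) z‖ ^ 2) (G ν r) ∧
    ∫ z, rho z ^ j * ‖∏ i, lin (V i) z‖ ^ 2 ∂(G ν r) =
      ((m + r).ascFactorial j : ℝ) * (gram V).permanent.re := by
  obtain ⟨h1, h2⟩ := hGRAM ν hν (Fin m) r j V
  refine ⟨h1, ?_⟩
  have h3 := congrArg Complex.re h2
  rw [Complex.ofReal_re, Complex.mul_re, Complex.natCast_re, Complex.natCast_im, zero_mul,
    sub_zero, Fintype.card_fin] at h3
  exact h3

lemma rho_nonneg {r : ℕ} (z : Fin r → ℂ) : 0 ≤ rho z :=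
  Finset.sum_nonneg fun _ _ => sq_nonneg _

lemma asc_eq (n j : ℕ) (hn : 1 ≤ n) :
    ((n.ascFactorial j : ℕ) : ℝ) = ((n + j - 1)! : ℝ) / ((n - 1)! : ℝ) := by
  obtain ⟨k, rfl⟩ := Nat.exists_eq_add_of_le' hn
  have h := Nat.factorial_mul_ascFactorial k j
  rw [eq_div_iff (by positivity)]
  have h2 : k + 1 + j - 1 = k + j := by omega
  have h3 : k + 1 - 1 = k := by omega
  rw [h2, h3, ← h]
  push_cast
  ring

end JEN2

open JEN2 in
theorem pJEN2 (hGAU : S_GAU) (hGRAM : S_GRAM) : S_JEN2 := by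
  intro r m k V hr hk hu1
  obtain ⟨ν, hν⟩ := hGAU
  obtain ⟨j, rfl⟩ : ∃ j, k = j + 2 := ⟨k - 2, by omega⟩
  obtain ⟨ik, ek⟩ := mom hGRAM ν hν r m (j + 2) 0 V
  obtain ⟨i2, e2⟩ := mom hGRAM ν hν r m 2 (m * j) V
  obtain ⟨i20, e20⟩ := mom hGRAM ν hν r m 2 0 V
  obtain ⟨i1, e1⟩ := mom1 hGRAM ν hν r m (m * (j + 1)) V
  set u1 := (gram V).permanent.re with hu1d
  set u2 := (gram (fun p : Fin 2 × Fin m => V p.2)).permanent.re with hu2d
  set uk := (gram (fun p : Fin (j + 2) × Fin m => V p.2)).permanent.re with hukd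
  simp only [pow_zero, one_mul, Nat.ascFactorial_zero, Nat.cast_one] at ek ik e20 i20
  have hu2 : 0 ≤ u2 := by
    rw [← e20]
    exact integral_nonneg fun z => by positivity
  rw [asc_eq (2 * m + r) (m * j) (by omega)] at e2
  rw [asc_eq (m + r) (m * (j + 1)) (by omega)] at e1
  have hn2 : 2 * m + r + m * j - 1 = (j + 2) * m + r - 1 := by
    have : 2 * m + r + m * j = (j + 2) * m + r := by ring
    rw [this]
  have hn1 : m + r + m * (j + 1) - 1 = (j + 2) * m + r - 1 := by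
    have : m + r + m * (j + 1) = (j + 2) * m + r := by ring
    rw [this]
  rw [hn2] at e2
  rw [hn1] at e1
  have hj2 : j + 2 - 2 = j := by omega
  have hj1 : j + 2 - 1 = j + 1 := by omega
  rw [hj2, hj1]
  set Fk : ℝ := (((j + 2) * m + r - 1)! : ℝ) with hFk
  set F2 : ℝ := ((2 * m + r - 1)! : ℝ) with hF2
  set F1 : ℝ := ((m + r - 1)! : ℝ) with hF1
  have hFk0 : 0 < Fk := by rw [hFk]; positivity
  have hF20 : 0 < F2 := by rw [hF2]; positivity
  have hF10 : 0 < F1 := by rw [hF1]; positivity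
  set s : ℝ := (u2 / F2) / (u1 / F1) with hs
  have hs0 : 0 ≤ s := by rw [hs]; positivity
  have hineq : ((j : ℝ) + 1) * s ^ j * (Fk / F2 * u2) - (j : ℝ) * s ^ (j + 1) * (Fk / F1 * u1) ≤
      uk := by
    rw [← ek, ← e2, ← e1, ← integral_const_mul, ← integral_const_mul,
      ← integral_sub (i2.const_mul _) (i1.const_mul _)]
    refine integral_mono ((i2.const_mul _).sub (i1.const_mul _)) ik fun z => ?_
    have h := tangent j (‖∏ i, lin (V i) z‖ ^ 2) (s * rho z ^ m) (by positivity)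
      (mul_nonneg hs0 (pow_nonneg (rho_nonneg z) _))
    refine le_trans (le_of_eq ?_) h
    simp only []
    rw [mul_pow, mul_pow, ← pow_mul, ← pow_mul]
    ring
  have hval : ((j : ℝ) + 1) * s ^ j * (Fk / F2 * u2) - (j : ℝ) * s ^ (j + 1) * (Fk / F1 * u1) =
      Fk * s ^ j * (u2 / F2) := by
    have h1 : s * (u1 / F1) = u2 / F2 := by
      rw [hs]
      field_simp
    have h2 : (j : ℝ) * s ^ (j + 1) * (Fk / F1 * u1) = (j : ℝ) * s ^ j * Fk * (s * (u1 / F1)) := by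
      ring
    rw [h2, h1]
    ring
  rw [hval] at hineq
  have hfin : F2 ^ (j + 1) * u1 ^ j * (Fk * s ^ j * (u2 / F2)) = Fk * F1 ^ j * u2 ^ (j + 1) := by
    have h1 : u1 * s * F2 = u2 * F1 := by
      rw [hs]
      field_simp
    have h2 : F2 ^ (j + 1) * u1 ^ j * (Fk * s ^ j * (u2 / F2)) =
        Fk * (u1 * s * F2) ^ j * (F2 * (u2 / F2)) := by
      rw [mul_pow, mul_pow]
      ring
    have h3 : F2 * (u2 / F2) = u2 := by field_simp
    rw [h2, h1, h3, mul_pow]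
    ring
  rw [← hfin]
  exact mul_le_mul_of_nonneg_left hineq (by positivity)

end Pool.Agent.T2H42.PJ
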