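import Pool.Agent.T2H42.PJ.Stm

/-! # Package MOM of project PJ: moments of the product law -/

set_option autoImplicit false

open MeasureTheory Finset
open scoped Nat ComplexOrder

namespace Pool.Agent.T2H42.PJ

namespace MOM

lemma integrable_one (ν : Measure ℂ) (h : Gs ν) (a b : ℕ) :
    Integrable (fun z : ℂ => z ^ a * (starRingEnd ℂ) z ^ b) ν := by
  refine (h.2.1 (a + b)).mono' ?_ ?_
  · exact (by fun_prop : Continuous fun z : ℂ => z ^ a * (starRingEnd ℂ) z ^ b).aestronglyMeasurable
  · refine Filter.Eventually.of_forall fun z => ?_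
    rw [norm_mul, norm_pow, norm_pow, RCLike.norm_conj, pow_add]

end MOM

theorem pMOM : S_MOM := by
  intro ν h r α β
  haveI := h.1
  refine ⟨?_, ?_⟩
  · exact Integrable.fintype_prod_dep (μ := fun _ : Fin r => ν)
      (f := fun c (z : ℂ) => z ^ α c * (starRingEnd ℂ) z ^ β c)
      (fun c => MOM.integrable_one ν h (α c) (β c))
  · have h1 : ∫ z, mono α β z ∂(G ν r) =
        ∏ c, ∫ z, z ^ α c * (starRingEnd ℂ) z ^ β c ∂ν :=
      integral_fintype_prod_eq_prod (𝕜 := ℂ) (μ := fun _ : Fin r => ν)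
        (fun c (z : ℂ) => z ^ α c * (starRingEnd ℂ) z ^ β c)
    rw [h1, Finset.prod_congr rfl fun c _ => h.2.2 (α c) (β c)]
    split_ifs with hab
    · subst hab
      push_cast
      exact Finset.prod_congr rfl fun c _ => if_pos rfl
    · obtain ⟨c, hc⟩ := Function.ne_iff.mp hab
      exact Finset.prod_eq_zero (mem_univ c) (if_neg hc)

end Pool.Agent.T2H42.PJ
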