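import Pool.Agent.T2H42.PJ.Stm

set_option autoImplicit false

open MeasureTheory Finset
open scoped Nat ComplexOrder

namespace Pool.Agent.T2H42.PJ

namespace RHO

/-- `α + e_c` -/
def bump {r : ℕ} (α : Fin r → ℕ) (c : Fin r) : Fin r → ℕ := fun x => α x + if x = c then 1 else 0

theorem mono_mul {r : ℕ} (α β : Fin r → ℕ) (c : Fin r) (z : Fin r → ℂ) :
    mono (bump α c) (bump β c) z = ((‖z c‖ ^ 2 : ℝ) : ℂ) * mono α β z := by
  unfold mono
  have h1 : ∀ x : Fin r, z x ^ bump α c x * (starRingEnd ℂ) (z x) ^ bump β c x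
      = (if x = c then ((‖z c‖ ^ 2 : ℝ) : ℂ) else 1) *
        (z x ^ α x * (starRingEnd ℂ) (z x) ^ β x) := by
    intro x
    by_cases hx : x = c
    · subst hx
      have h2 : ((‖z x‖ ^ 2 : ℝ) : ℂ) = z x * (starRingEnd ℂ) (z x) := by
        rw [Complex.mul_conj, Complex.normSq_eq_norm_sq]
      simp only [bump, if_true]
      rw [h2, pow_succ, pow_succ]
      ring
    · simp [bump, hx]
  rw [prod_congr rfl fun x _ => h1 x, prod_mul_distrib]
  simp

theorem rho_mono {r : ℕ} (α β : Fin r → ℕ) (z : Fin r → ℂ) (j : ℕ) :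
    ((rho z ^ (j + 1) : ℝ) : ℂ) * mono α β z =
      ∑ c, ((rho z ^ j : ℝ) : ℂ) * mono (bump α c) (bump β c) z := by
  rw [← mul_sum]
  simp_rw [mono_mul]
  rw [← sum_mul, ← mul_assoc]
  congr 1
  rw [pow_succ]
  push_cast [rho]
  rfl

theorem prod_fact {r : ℕ} (α : Fin r → ℕ) (c : Fin r) :
    ∏ x, (bump α c x)! = (α c + 1) * ∏ x, (α x)! := by
  have h1 : ∀ x : Fin r, (bump α c x)! = (if x = c then α c + 1 else 1) * (α x)! := by
    intro x
    by_cases hx : x = c
    · subst hx
      simp [bump, Nat.factorial_succ]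
    · simp [bump, hx]
  rw [prod_congr rfl fun x _ => h1 x, prod_mul_distrib]
  simp

theorem sum_add {r : ℕ} (α : Fin r → ℕ) (c : Fin r) :
    ∑ x, bump α c x = ∑ x, α x + 1 := by
  simp [bump, sum_add_distrib]

theorem bump_inj {r : ℕ} {α β : Fin r → ℕ} {c : Fin r} (h : bump α c = bump β c) : α = β := by
  funext x
  have h1 := congrFun h x
  simp only [bump] at h1
  omega

end RHO

theorem pRHO (hMOM : S_MOM) : S_RHO := by
  intro ν hν r j
  induction j with
  | zero =>
    intro α β
    have h := hMOM ν hν r α β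
    simpa using h
  | succ j ih =>
    intro α β
    have hfun : (fun z : Fin r → ℂ => ((rho z ^ (j + 1) : ℝ) : ℂ) * mono α β z) =
        fun z => ∑ c, ((rho z ^ j : ℝ) : ℂ) * mono (RHO.bump α c) (RHO.bump β c) z :=
      funext fun z => RHO.rho_mono α β z j
    rw [hfun]
    have hint : ∀ c ∈ (univ : Finset (Fin r)), Integrable (fun z : Fin r → ℂ =>
        ((rho z ^ j : ℝ) : ℂ) * mono (RHO.bump α c) (RHO.bump β c) z) (G ν r) :=
      fun c _ => (ih _ _).1
    refine ⟨integrable_finsetSum _ hint, ?_⟩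
    rw [integral_finsetSum _ hint]
    by_cases h : α = β
    · subst h
      rw [if_pos rfl]
      have h1 : ∀ c : Fin r, ∫ z, ((rho z ^ j : ℝ) : ℂ) *
          mono (RHO.bump α c) (RHO.bump α c) z ∂(G ν r) =
          (((α c + 1) * ((∏ x, (α x)!) * (∑ x, α x + r + 1).ascFactorial j) : ℕ) : ℂ) := by
        intro c
        rw [(ih _ _).2, if_pos rfl, RHO.prod_fact, RHO.sum_add]
        congr 1
        rw [show ∑ x, α x + 1 + r = ∑ x, α x + r + 1 by ring]
        ring
      rw [sum_congr rfl fun c _ => h1 c, ← Nat.cast_sum]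
      congr 1
      rw [← sum_mul, sum_add_distrib]
      simp only [sum_const, card_univ, Fintype.card_fin, smul_eq_mul, mul_one]
      have h2 := Nat.succ_ascFactorial (∑ x, α x + r) j
      rw [Nat.ascFactorial_succ, ← h2]
      simp only [Nat.succ_eq_add_one]
      ring
    · rw [if_neg h]
      refine sum_eq_zero fun c _ => ?_
      rw [(ih _ _).2, if_neg]
      intro h3
      exact h (RHO.bump_inj h3)

end Pool.Agent.T2H42.PJ
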