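import Pool.Agent.T2H42.PJ.Stm

set_option autoImplicit false

open MeasureTheory Finset
open scoped Nat ComplexOrder

namespace Pool.Agent.T2H42.PJ

namespace MAIN

lemma per_equiv {κ ι : Type} [Fintype κ] [DecidableEq κ] [Fintype ι] [DecidableEq ι] (e : κ ≃ ι)
    (M : Matrix ι ι ℂ) : (M.submatrix e e).permanent = M.permanent := by
  unfold Matrix.permanent
  refine Fintype.sum_equiv (Equiv.permCongr e) _ _ (fun σ => ?_)
  refine Fintype.prod_equiv e _ _ (fun i => ?_)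
  simp [Equiv.permCongr_apply]

lemma arith {Da Db N Xa Xb P Q PA PB H : ℝ} (hDa : 0 < Da) (hDb : 0 < Db) (hN : 0 < N)
    (hP : 0 ≤ P) (hQ : 0 ≤ Q) (hXa : 0 ≤ Xa) (hXb : 0 ≤ Xb)
    (h1 : PA * PB ≤ N * H) (h2 : Xa * P ≤ Da * PA) (h3 : Xb * Q ≤ Db * PB) (h4 : Da * Db * N ≤ Xa * Xb) :
    P * Q ≤ H := by
  have e1 : (Xa * P) * (Xb * Q) ≤ (Da * PA) * (Db * PB) := by
    have : 0 ≤ Da * PA := (mul_nonneg hXa hP).trans h2
    exact mul_le_mul h2 h3 (mul_nonneg hXb hQ) this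
  have e2 : (Da * PA) * (Db * PB) ≤ (Da * Db) * (N * H) := by
    have := mul_le_mul_of_nonneg_left h1 (mul_pos hDa hDb).le
    calc (Da * PA) * (Db * PB) = (Da * Db) * (PA * PB) := by ring
      _ ≤ _ := this
  have e3 : (Da * Db * N) * (P * Q) ≤ (Xa * Xb) * (P * Q) :=
    mul_le_mul_of_nonneg_right h4 (mul_nonneg hP hQ)
  have e4 : (Da * Db * N) * (P * Q) ≤ (Da * Db * N) * H := by
    calc (Da * Db * N) * (P * Q) ≤ (Xa * Xb) * (P * Q) := e3
      _ = (Xa * P) * (Xb * Q) := by ring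
      _ ≤ _ := e1
      _ ≤ _ := e2
      _ = (Da * Db * N) * H := by ring
  exact le_of_mul_le_mul_left e4 (mul_pos (mul_pos hDa hDb) hN)

lemma re_of_im {z : ℂ} (h : z.im = 0) : z = (z.re : ℂ) := by
  apply Complex.ext
  · simp
  · simp [h]

end MAIN

theorem pMAIN (hGRM : S_GRM) (hJEN : S_JEN) (hHAD : S_HAD) : S_MAIN := by
  intro n m r s A B hn hm hr hs hA hB hrA hrB hc
  obtain ⟨a, rfl⟩ := hGRM n r A hA hrA
  obtain ⟨b, rfl⟩ := hGRM m s B hB hrB
  have hk : Matrix.kronecker (gram a) (gram b) =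
      had (fun p : Fin n × Fin m => a p.1) (fun p : Fin n × Fin m => b p.2) := by
    ext ⟨i, j⟩ ⟨i', j'⟩
    rfl
  have hsw : (gram (fun p : Fin m × Fin n => a p.2)).permanent =
      (gram (fun p : Fin n × Fin m => a p.1)).permanent := by
    rw [← MAIN.per_equiv (Equiv.prodComm (Fin m) (Fin n)) (gram (fun p : Fin n × Fin m => a p.1))]
    rfl
  obtain ⟨ha1, ha2, -, -⟩ := hHAD (Fin n) r r a a
  obtain ⟨hb1, hb2, -, -⟩ := hHAD (Fin m) s s b b
  obtain ⟨-, -, hHim, h1⟩ := hHAD (Fin n × Fin m) r s (fun p => a p.1) (fun p => b p.2)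
  
  have h2 := hJEN r n m a hr hm
  have h3 := hJEN s m n b hs hn
  rw [hsw] at h2
  rw [hk, MAIN.re_of_im ha1, MAIN.re_of_im hb1, MAIN.re_of_im hHim]
  norm_cast
  have hcard : Fintype.card (Fin n × Fin m) = n * m := by simp
  rw [hcard] at h1
  rw [mul_comm m n] at h2
  refine MAIN.arith (Da := ((n + r - 1)! : ℝ) ^ m) (Db := ((m + s - 1)! : ℝ) ^ n) (N := ((n * m)! : ℝ))
    (Xa := ((n * m + r - 1)! : ℝ) * ((r - 1)! : ℝ) ^ (m - 1))
    (Xb := ((n * m + s - 1)! : ℝ) * ((s - 1)! : ℝ) ^ (n - 1))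
    (by positivity) (by positivity) (by positivity) (pow_nonneg ha2 _) (pow_nonneg hb2 _) (by positivity)
    (by positivity) h1 h2 h3 ?_
  have := hc
  unfold cond at this
  exact_mod_cast this

end Pool.Agent.T2H42.PJ
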