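import Pool.Agent.T2H42.PJ.Stm2
import Pool.Agent.T2H42.PJ.MAIN
import Pool.Agent.Results.MP_2dd521_co.TwoByTwo

set_option autoImplicit false

open MeasureTheory Finset
open scoped Nat ComplexOrder

namespace Pool.Agent.T2H42.PJ

theorem pTWO (hGRM : S_GRM) (hHAD : S_HAD) : S_TWO := by
  intro m M hM
  have hJ : (Matrix.of fun _ _ : Fin 2 => (1 : ℂ)).PosSemidef := by
    have h : (Matrix.of fun _ _ : Fin 2 => (1 : ℂ)) =
        Matrix.vecMulVec (fun _ : Fin 2 => (1 : ℂ)) (star fun _ : Fin 2 => (1 : ℂ)) := by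
      ext i j
      simp [Matrix.vecMulVec]
    rw [h]
    exact Matrix.posSemidef_vecMulVec_self_star _
  have h := Pool.Agent.Results.MP_2dd521_co.TwoByTwo.result 2 m _ M hJ hM (Or.inl le_rfl)
  have hp : (Matrix.of fun _ _ : Fin 2 => (1 : ℂ)).permanent = 2 := by
    unfold Matrix.permanent
    simp [Fintype.card_perm]
  obtain ⟨V, rfl⟩ := hGRM m m M hM (Matrix.rank_le_card_width M |>.trans (by simp))
  obtain ⟨him, -, -, -⟩ := hHAD (Fin m) m m V V
  rw [hp, MAIN.re_of_im him] at h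
  have h2 := (Complex.le_def.1 h).1
  have e : ((2 : ℂ) ^ m * (((gram V).permanent.re : ℝ) : ℂ) ^ 2).re = (2 : ℝ) ^ m * (gram V).permanent.re ^ 2 := by
    have : ((2 : ℂ) ^ m * (((gram V).permanent.re : ℝ) : ℂ) ^ 2) =
        (((2 : ℝ) ^ m * (gram V).permanent.re ^ 2 : ℝ) : ℂ) := by push_cast; ring
    rw [this, Complex.ofReal_re]
  rw [e] at h2
  exact h2

end Pool.Agent.T2H42.PJ
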