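import Pool.Agent.T2H42.PJ.GAU
import Pool.Agent.T2H42.PJ.MOM
import Pool.Agent.T2H42.PJ.RHO
import Pool.Agent.T2H42.PJ.CNT
import Pool.Agent.T2H42.PJ.GRAM
import Pool.Agent.T2H42.PJ.JEN
import Pool.Agent.T2H42.PJ.JEN2
import Pool.Agent.T2H42.PJ.HAD
import Pool.Agent.T2H42.PJ.GRM
import Pool.Agent.T2H42.PJ.ARI
import Pool.Agent.T2H42.PJ.ARIC1
import Pool.Agent.T2H42.PJ.ARIC2
import Pool.Agent.T2H42.PJ.TWO
import Pool.Agent.T2H42.PJ.PATE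
import Pool.Agent.T2H42.PJ.FIN
import Pool.Agent.T2H42.PJ.FIN2
import Pool.Agent.T2H42.PJ.FIN3
import Pool.Agent.T2H42.PJ.FIN4

/-!
Project PJ: all packages together.
-/

set_option autoImplicit false

namespace Pool.Agent.T2H42.PJ

theorem tGRAM : S_GRAM := pGRAM (pRHO pMOM) pCNT

theorem tJEN : S_JEN := pJEN pGAU tGRAM

theorem tJEN2 : S_JEN2 := pJEN2 pGAU tGRAM

theorem tTWO : S_TWO := pTWO pGRM pHAD

theorem tARIC : S_ARIC := ⟨pARIC1, pARIC2⟩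

theorem tGEN : S_GEN := pGEN pGRM tJEN pHAD

theorem tPATE : S_PATE := pPATE pGRM tJEN pHAD pARI

end Pool.Agent.T2H42.PJ
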