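import Pool.Agent.T2H42.PJ.Stm

/-! # Package GAU of project PJ: a law on the complex plane with Gaussian moments -/

set_option autoImplicit false

open MeasureTheory Finset
open scoped Nat ComplexOrder

namespace Pool.Agent.T2H42.PJ

namespace GAU

/-- the exponential law -/
noncomputable def mu : Measure ℝ :=
  (volume.restrict (Set.Ioi (0 : ℝ))).withDensity fun x => ENNReal.ofReal (Real.exp (-x))

/-- the uniform law on `(0, 1]` -/
noncomputable def un : Measure ℝ := volume.restrict (Set.Ioc (0 : ℝ) 1)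

lemma integral_mu {E : Type} [NormedAddCommGroup E] [NormedSpace ℝ E] (g : ℝ → E) :
    ∫ x, g x ∂mu = ∫ x in Set.Ioi (0 : ℝ), Real.exp (-x) • g x := by
  unfold mu
  rw [integral_withDensity_eq_integral_toReal_smul (by fun_prop)
    (Filter.Eventually.of_forall fun x => ENNReal.ofReal_lt_top)]
  refine integral_congr_ae (Filter.Eventually.of_forall fun x => ?_)
  simp only
  rw [ENNReal.toReal_ofReal (Real.exp_pos _).le]

lemma integrable_mu {E : Type} [NormedAddCommGroup E] [NormedSpace ℝ E] (g : ℝ → E) :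
    Integrable g mu ↔ IntegrableOn (fun x => Real.exp (-x) • g x) (Set.Ioi (0 : ℝ)) := by
  unfold mu
  rw [integrable_withDensity_iff_integrable_smul' (by fun_prop)
    (Filter.Eventually.of_forall fun x => ENNReal.ofReal_lt_top)]
  refine integrable_congr (Filter.Eventually.of_forall fun x => ?_)
  simp only
  rw [ENNReal.toReal_ofReal (Real.exp_pos _).le]

lemma sqrt_pow_eq {x : ℝ} (hx : 0 < x) (n : ℕ) : √x ^ n = x ^ (((n : ℝ) / 2 + 1) - 1) := by
  rw [add_sub_cancel_right, Real.sqrt_eq_rpow, ← Real.rpow_natCast, ← Real.rpow_mul hx.le]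
  congr 1
  ring

lemma integrable_sqrt (n : ℕ) : Integrable (fun x : ℝ => √x ^ n) mu := by
  rw [integrable_mu]
  have h := Real.GammaIntegral_convergent (s := (n : ℝ) / 2 + 1) (by positivity)
  refine h.congr_fun (fun x hx => ?_) measurableSet_Ioi
  simp only [smul_eq_mul]
  rw [sqrt_pow_eq hx]

lemma integral_sqrt (a : ℕ) : ∫ x, √x ^ (a + a) ∂mu = (a ! : ℝ) := by
  rw [integral_mu]
  have h := Real.Gamma_eq_integral (s := (((a + a : ℕ) : ℝ) / 2 + 1)) (by positivity)
  have h2 : (((a + a : ℕ) : ℝ) / 2 + 1) = (a : ℝ) + 1 := by push_cast; ring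
  rw [← Real.Gamma_nat_eq_factorial, ← h2, h]
  refine setIntegral_congr_fun measurableSet_Ioi fun x hx => ?_
  simp only [smul_eq_mul]
  rw [sqrt_pow_eq hx]

instance : IsProbabilityMeasure mu := by
  constructor
  have h := integral_sqrt 0
  simp only [Nat.add_zero, pow_zero, Nat.factorial_zero, Nat.cast_one] at h
  rw [integral_const, smul_eq_mul, mul_one] at h
  have hi := integrable_sqrt 0
  simp only [pow_zero] at hi
  haveI : IsFiniteMeasure mu := (integrable_const_iff_isFiniteMeasure one_ne_zero).mp hi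
  have h3 : mu.real Set.univ = 1 := h
  rw [Measure.real] at h3
  rw [← ENNReal.toReal_eq_one_iff]
  exact h3

instance : IsProbabilityMeasure un := by
  constructor
  unfold un
  simp

/-- polar coordinates -/
noncomputable def ph (p : ℝ × ℝ) : ℂ := (√p.1 : ℂ) * Complex.exp (2 * Real.pi * Complex.I * p.2)

lemma cont_ph : Continuous ph := by
  unfold ph
  fun_prop

lemma norm_ph (p : ℝ × ℝ) : ‖ph p‖ = √p.1 := by
  unfold ph
  rw [norm_mul, Complex.norm_real, Real.norm_of_nonneg (Real.sqrt_nonneg _)]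
  have : (2 * Real.pi * Complex.I * p.2 : ℂ) = ((2 * Real.pi * p.2 : ℝ) : ℂ) * Complex.I := by
    push_cast; ring
  rw [this, Complex.norm_exp_ofReal_mul_I, mul_one]

lemma ph_pow (a b : ℕ) (p : ℝ × ℝ) : ph p ^ a * (starRingEnd ℂ) (ph p) ^ b =
    ((√p.1 ^ (a + b) : ℝ) : ℂ) * Complex.exp (2 * Real.pi * Complex.I * ((a : ℂ) - b) * p.2) := by
  unfold ph
  have h : (starRingEnd ℂ) ((√p.1 : ℂ) * Complex.exp (2 * Real.pi * Complex.I * p.2)) =
      (√p.1 : ℂ) * Complex.exp (-(2 * Real.pi * Complex.I * p.2)) := by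
    rw [map_mul, Complex.conj_ofReal, ← Complex.exp_conj]
    congr 2
    have e : (2 * Real.pi * Complex.I * p.2 : ℂ) = ((2 * Real.pi * p.2 : ℝ) : ℂ) * Complex.I := by
      push_cast; ring
    rw [e, map_mul, Complex.conj_ofReal, Complex.conj_I]
    ring
  rw [h, mul_pow, mul_pow, ← Complex.exp_nat_mul, ← Complex.exp_nat_mul]
  push_cast
  rw [pow_add]
  have h2 : Complex.exp (2 * Real.pi * Complex.I * ((a : ℂ) - b) * p.2) =
      Complex.exp (a * (2 * Real.pi * Complex.I * p.2)) *
        Complex.exp (b * (-(2 * Real.pi * Complex.I * p.2))) := by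
    rw [← Complex.exp_add]
    congr 1
    ring
  rw [h2]
  ring

lemma integral_un (a b : ℕ) :
    ∫ x : ℝ, Complex.exp (2 * Real.pi * Complex.I * ((a : ℂ) - b) * x) ∂un =
      if a = b then 1 else 0 := by
  unfold un
  rw [← intervalIntegral.integral_of_le zero_le_one]
  split_ifs with h
  · subst h
    simp
  · have hab : ((a : ℂ) - b) ≠ 0 := sub_ne_zero.mpr (by exact_mod_cast h)
    have hc : (2 * Real.pi * Complex.I * ((a : ℂ) - b)) ≠ 0 := by
      refine mul_ne_zero ?_ hab
      exact Complex.two_pi_I_ne_zero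
    rw [integral_exp_mul_complex hc]
    have h1 : Complex.exp (2 * Real.pi * Complex.I * ((a : ℂ) - b) * ((1 : ℝ) : ℂ)) = 1 := by
      have := Complex.exp_int_mul_two_pi_mul_I ((a : ℤ) - b)
      rw [← this]
      congr 1
      push_cast
      ring
    rw [h1]
    simp

end GAU

open GAU in
theorem pGAU : S_GAU := by
  refine ⟨Measure.map ph (mu.prod un), ?_, ?_, ?_⟩
  · exact Measure.isProbabilityMeasure_map cont_ph.aemeasurable
  · intro n
    rw [integrable_map_measure (by fun_prop) cont_ph.aemeasurable]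
    have h : ((fun z : ℂ => ‖z‖ ^ n) ∘ ph) = fun p : ℝ × ℝ => √p.1 ^ n := by
      funext p
      simp only [Function.comp_apply, norm_ph]
    rw [h]
    exact (integrable_sqrt n).comp_fst un
  · intro a b
    rw [integral_map cont_ph.aemeasurable (by fun_prop)]
    simp only [ph_pow]
    have h := integral_prod_mul (μ := mu) (ν := un) (L := ℂ)
      (fun x : ℝ => ((√x ^ (a + b) : ℝ) : ℂ))
      (fun x : ℝ => Complex.exp (2 * Real.pi * Complex.I * ((a : ℂ) - b) * x))
    rw [h, integral_un]
    split_ifs with hab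
    · subst hab
      rw [integral_complex_ofReal, integral_sqrt, mul_one]
      simp
    · rw [mul_zero]

end Pool.Agent.T2H42.PJ
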