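import Pool.Agent.T2H42.PJ.MAIN

/-!
The general bound of project PJ for the permanent of a Kronecker product of positive semidefinite matrices.
-/

set_option autoImplicit false

open MeasureTheory Finset
open scoped Nat ComplexOrder

namespace Pool.Agent.T2H42.PJ

/-- the general bound, real form -/
def S_GEN : Prop := ∀ (n m r s : ℕ) (A : Matrix (Fin n) (Fin n) ℂ) (B : Matrix (Fin m) (Fin m) ℂ),
  1 ≤ n → 1 ≤ m → 1 ≤ r → 1 ≤ s → A.PosSemidef → B.PosSemidef → A.rank ≤ r → B.rank ≤ s →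
  (A.permanent.im = 0 ∧ 0 ≤ A.permanent.re ∧ B.permanent.im = 0 ∧ 0 ≤ B.permanent.re ∧
    (Matrix.kronecker A B).permanent.im = 0) ∧
  (((n * m + r - 1)! : ℝ) * ((r - 1)! : ℝ) ^ (m - 1) * (((n * m + s - 1)! : ℝ) * ((s - 1)! : ℝ) ^ (n - 1))) *
      (A.permanent.re ^ m * B.permanent.re ^ n) ≤
    (((n + r - 1)! : ℝ) ^ m * ((m + s - 1)! : ℝ) ^ n * ((n * m)! : ℝ)) * (Matrix.kronecker A B).permanent.re

namespace MAIN2

lemma arith {Da Db N Xa Xb P Q PA PB H : ℝ} (hDa : 0 < Da) (hDb : 0 < Db)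
    (hP : 0 ≤ P) (hQ : 0 ≤ Q) (hXa : 0 ≤ Xa) (hXb : 0 ≤ Xb)
    (h1 : PA * PB ≤ N * H) (h2 : Xa * P ≤ Da * PA) (h3 : Xb * Q ≤ Db * PB) :
    (Xa * Xb) * (P * Q) ≤ (Da * Db * N) * H := by
  have e1 : (Xa * P) * (Xb * Q) ≤ (Da * PA) * (Db * PB) := by
    have : 0 ≤ Da * PA := (mul_nonneg hXa hP).trans h2
    exact mul_le_mul h2 h3 (mul_nonneg hXb hQ) this
  have e2 : (Da * PA) * (Db * PB) ≤ (Da * Db) * (N * H) := by
    have := mul_le_mul_of_nonneg_left h1 (mul_pos hDa hDb).le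
    calc (Da * PA) * (Db * PB) = (Da * Db) * (PA * PB) := by ring
      _ ≤ _ := this
  calc (Xa * Xb) * (P * Q) = (Xa * P) * (Xb * Q) := by ring
    _ ≤ _ := e1
    _ ≤ _ := e2
    _ = (Da * Db * N) * H := by ring

end MAIN2

theorem pGEN (hGRM : S_GRM) (hJEN : S_JEN) (hHAD : S_HAD) : S_GEN := by
  intro n m r s A B hn hm hr hs hA hB hrA hrB
  obtain ⟨a, rfl⟩ := hGRM n r A hA hrA
  obtain ⟨b, rfl⟩ := hGRM m s B hB hrB
  have hk : Matrix.kronecker (gram a) (gram b) =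
      had (fun p : Fin n × Fin m => a p.1) (fun p : Fin n × Fin m => b p.2) := by
    ext ⟨i, j⟩ ⟨i', j'⟩
    rfl
  have hsw : (gram (fun p : Fin m × Fin n => a p.2)).permanent =
      (gram (fun p : Fin n × Fin m => a p.1)).permanent := by
    rw [← MAIN.per_equiv (Equiv.prodComm (Fin m) (Fin n)) (gram (fun p : Fin n × Fin m => a p.1))]
    rfl
  obtain ⟨ha1, ha2, -, -⟩ := hHAD (Fin n) r r a a
  obtain ⟨hb1, hb2, -, -⟩ := hHAD (Fin m) s s b b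
  obtain ⟨-, -, hHim, h1⟩ := hHAD (Fin n × Fin m) r s (fun p => a p.1) (fun p => b p.2)
  have h2 := hJEN r n m a hr hm
  have h3 := hJEN s m n b hs hn
  rw [hsw] at h2
  rw [hk]
  refine ⟨⟨ha1, ha2, hb1, hb2, hHim⟩, ?_⟩
  have hcard : Fintype.card (Fin n × Fin m) = n * m := by simp
  rw [hcard] at h1
  rw [mul_comm m n] at h2
  exact MAIN2.arith (Da := ((n + r - 1)! : ℝ) ^ m) (Db := ((m + s - 1)! : ℝ) ^ n) (N := ((n * m)! : ℝ))
    (Xa := ((n * m + r - 1)! : ℝ) * ((r - 1)! : ℝ) ^ (m - 1))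
    (Xb := ((n * m + s - 1)! : ℝ) * ((s - 1)! : ℝ) ^ (n - 1))
    (by positivity) (by positivity) (pow_nonneg ha2 _) (pow_nonneg hb2 _) (by positivity)
    (by positivity) h1 h2 h3

end Pool.Agent.T2H42.PJ
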