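import Pool.Agent.T2H42.PJ.Stm

set_option autoImplicit false

open MeasureTheory Finset
open scoped Nat ComplexOrder

namespace Pool.Agent.T2H42.PJ

theorem pPATE (hGRM : S_GRM) (hJEN : S_JEN) (hHAD : S_HAD) (hARI : S_ARI) : S_PATE := by
  intro k m M hM hr
  rcases Nat.eq_zero_or_pos k with hk | hk
  · subst hk
    simp [Matrix.permanent]
  rcases Nat.eq_zero_or_pos m with hm | hm
  · subst hm
    simp [Matrix.permanent]
  set r := max 1 M.rank with hrdef
  have hr1 : 1 ≤ r := le_max_left _ _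
  have hr2 : 2 * r ≤ m + 1 := by
    rw [hrdef]
    rcases le_total 1 M.rank with h | h
    · rw [max_eq_right h]; exact hr
    · rw [max_eq_left h]; omega
  obtain ⟨V, hV⟩ := hGRM m r M hM (le_max_right _ _)
  obtain ⟨him, hre, -, -⟩ := hHAD (Fin m) r r V V
  obtain ⟨him', hre', -, -⟩ := hHAD (Fin k × Fin m) r r (fun p => V p.2) (fun p => V p.2)
  have hK : Matrix.kronecker (Matrix.of fun _ _ : Fin k => (1 : ℂ)) M = gram (fun p : Fin k × Fin m => V p.2) := by
    rw [hV]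
    ext p q
    simp [Matrix.kronecker, Matrix.kroneckerMap, gram]
  have hj := hJEN r m k V hr1 hk
  have ha := hARI.1 r m k hr1 hk (hARI.2 r m hr1 hr2)
  rw [hK]
  have e1 : M.permanent = (((gram V).permanent.re : ℝ) : ℂ) := by
    rw [hV]
    apply Complex.ext <;> simp [him]
  have e2 : (gram (fun p : Fin k × Fin m => V p.2)).permanent =
      (((gram (fun p : Fin k × Fin m => V p.2)).permanent.re : ℝ) : ℂ) := by
    apply Complex.ext <;> simp [him']
  rw [e1, e2]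
  set x := (gram V).permanent.re
  set y := (gram (fun p : Fin k × Fin m => V p.2)).permanent.re
  have ha' : (k ! : ℝ) ^ m * ((m + r - 1)! : ℝ) ^ k ≤ ((k * m + r - 1)! : ℝ) * ((r - 1)! : ℝ) ^ (k - 1) := by
    exact_mod_cast ha
  have hF : (0 : ℝ) < ((m + r - 1)! : ℝ) ^ k := by positivity
  have hfin : (k ! : ℝ) ^ m * x ^ k ≤ y := by
    have h1 : ((m + r - 1)! : ℝ) ^ k * ((k ! : ℝ) ^ m * x ^ k) ≤ ((m + r - 1)! : ℝ) ^ k * y := by
      calc ((m + r - 1)! : ℝ) ^ k * ((k ! : ℝ) ^ m * x ^ k) =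
            ((k ! : ℝ) ^ m * ((m + r - 1)! : ℝ) ^ k) * x ^ k := by ring
        _ ≤ (((k * m + r - 1)! : ℝ) * ((r - 1)! : ℝ) ^ (k - 1)) * x ^ k :=
            mul_le_mul_of_nonneg_right ha' (pow_nonneg hre k)
        _ ≤ _ := hj
    exact le_of_mul_le_mul_left h1 hF
  have h2 : (((k ! : ℝ) ^ m * x ^ k : ℝ) : ℂ) ≤ ((y : ℝ) : ℂ) := Complex.real_le_real.2 hfin
  push_cast at h2
  exact h2

end Pool.Agent.T2H42.PJ
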