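import Mathlib

/-!
# Project PJ (helper42): MP_2dd521_co (Liang-So-Zhang) and MP_8d2b2d_co (Pate), permanents of Kronecker products of
positive semidefinite matrices of low rank

TARGETS.
(1) `(k!)^m (per M)^k ≤ per(J_k ⊗ M)` for all `k` and all psd `m × m` matrices `M` with `2 rank M ≤ m + 1`.
(2) `(per A)^m (per B)^n ≤ per(A ⊗ B)` for psd `A` (`n × n`, rank `≤ r`), `B` (`m × m`, rank `≤ s`) if `cond n m r s`; so for
all `n, m ≥ n₀(r,s)`.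

Proof. For `z` complex Gaussian in `ℂ^r` and `p(z) = ∏_i ⟨v_i, z⟩` one has `E |p|² = per(Gram v)`, and with `ρ = |z|²`,
`E ρ^j |p|² = (m+r)(m+r+1)⋯(m+r+j-1) per(Gram v)`. The tangent line inequality `x^k ≥ k t^(k-1) x - (k-1) t^k` with
`x = |p|²`, `t = s ρ^m` gives `per(J_k ⊗ M) = E |p|^(2k) ≥ (km+r-1)! (r-1)!^(k-1) / (m+r-1)!^k (per M)^k`.
Also `per(A∘B) ≥ per A per B / N!` for psd `N × N` matrices, used for `A ⊗ J_m` and `J_n ⊗ B`.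

Every package is INDEPENDENT: what it needs from others are hypotheses, as listed (Deps). File
`Pool/Agent/T2H42/PJ/<ID>.lean`: `import Pool.Agent.T2H42.PJ.Stm`, `namespace Pool.Agent.T2H42.PJ`,
`theorem p<ID> (h : S_dep) .. : S_<ID>`; put your own lemmas in a namespace `<ID>`.
-/

set_option autoImplicit false

open MeasureTheory Finset
open scoped Nat ComplexOrder

namespace Pool.Agent.T2H42.PJ

/-- a law on `ℂ` with the moments of the standard complex Gaussian -/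
def Gs (ν : Measure ℂ) : Prop := IsProbabilityMeasure ν ∧ (∀ n : ℕ, Integrable (fun z : ℂ => ‖z‖ ^ n) ν) ∧
  ∀ a b : ℕ, ∫ z, z ^ a * (starRingEnd ℂ) z ^ b ∂ν = if a = b then (a ! : ℂ) else 0

/-- the product law on `ℂ^r` -/
noncomputable def G (ν : Measure ℂ) (r : ℕ) : Measure (Fin r → ℂ) := Measure.pi fun _ => ν

/-- `|z|²` -/
noncomputable def rho {r : ℕ} (z : Fin r → ℂ) : ℝ := ∑ c, ‖z c‖ ^ 2

/-- a monomial in `z` and `conj z` -/
noncomputable def mono {r : ℕ} (α β : Fin r → ℕ) (z : Fin r → ℂ) : ℂ := ∏ c, (z c ^ α c * (starRingEnd ℂ) (z c) ^ β c)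

/-- a linear form -/
noncomputable def lin {r : ℕ} (v z : Fin r → ℂ) : ℂ := ∑ c, v c * z c

/-- the Gram matrix of the rows of `V` -/
noncomputable def gram {ι : Type} {r : ℕ} (V : ι → Fin r → ℂ) : Matrix ι ι ℂ :=
  Matrix.of fun i l => ∑ c, V i c * (starRingEnd ℂ) (V l c)

/-- the entrywise product of two Gram matrices -/
noncomputable def had {ι : Type} {r s : ℕ} (a : ι → Fin r → ℂ) (b : ι → Fin s → ℂ) : Matrix ι ι ℂ :=
  Matrix.of fun i l => gram a i l * gram b i l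

/-- the condition on the sizes and the ranks -/
def cond (n m r s : ℕ) : Prop := (n + r - 1)! ^ m * (m + s - 1)! ^ n * (n * m)! ≤
  ((n * m + r - 1)! * (r - 1)! ^ (m - 1)) * ((n * m + s - 1)! * (s - 1)! ^ (n - 1))

/-- GAU (25 min, no Deps). Image under `(x, θ) ↦ √x e^{2πiθ}` of `e^{-x} dx` on `(0,∞)` times the uniform law on `[0,1]`:
`∫ z^a conj z^b = ∫ x^{(a+b)/2} e^{-x} dx · ∫_0^1 e^{2πi(a-b)θ} dθ`, `∫ x^a e^{-x} dx = Γ(a+1) = a!`. -/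
def S_GAU : Prop := ∃ ν : Measure ℂ, Gs ν

/-- MOM (20 min, no Deps). `integral_fintype_prod_eq_prod`, `Integrable.fintype_prod`; `|z^a conj z^b| = ‖z‖^(a+b)`. -/
def S_MOM : Prop := ∀ ν : Measure ℂ, Gs ν → ∀ (r : ℕ) (α β : Fin r → ℕ), Integrable (mono α β) (G ν r) ∧
  ∫ z, mono α β z ∂(G ν r) = if α = β then ((∏ c, (α c)! : ℕ) : ℂ) else 0

/-- RHO (25 min, Deps: MOM). Induction on `j`: `ρ · mono α β = ∑_c mono (α+e_c) (β+e_c)`, and
`∑_c (α+e_c)! = α! ∑_c (α_c+1) = α! (|α|+r)`; `ascFactorial n j = n(n+1)⋯(n+j-1)`. -/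
def S_RHO : Prop := ∀ ν : Measure ℂ, Gs ν → ∀ (r j : ℕ) (α β : Fin r → ℕ),
  Integrable (fun z => ((rho z ^ j : ℝ) : ℂ) * mono α β z) (G ν r) ∧
  ∫ z, ((rho z ^ j : ℝ) : ℂ) * mono α β z ∂(G ν r) =
    if α = β then (((∏ c, (α c)!) * (∑ c, α c + r).ascFactorial j : ℕ) : ℂ) else 0

/-- CNT (20 min, no Deps). If the multiplicities agree there is one such `σ₀`, and the others are `σ₀ τ` with `τ` in the
stabiliser of `c`: `DomMulAct.stabilizer_card`. -/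
def S_CNT : Prop := ∀ (ι : Type) [Fintype ι] [DecidableEq ι] (r : ℕ) (c d : ι → Fin r),
  (univ.filter fun σ : Equiv.Perm ι => ∀ i, c i = d (σ i)).card =
    if (fun x => (univ.filter fun i => c i = x).card) = (fun x => (univ.filter fun i => d i = x).card)
    then ∏ x, ((univ.filter fun i => c i = x).card)! else 0

/-- GRAM (30 min, Deps: RHO, CNT). Expand `∏_i lin (V i) z = ∑_c ∏_i V i (c i) · ∏_i z (c i)` over the `c : ι → Fin r`
(`Finset.prod_univ_sum`); `∏_i z (c i) · conj ∏_i z (d i) = mono (mult c) (mult d)`, `mult c x` = number of `i` with `c i = x`;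
by RHO and CNT the integral is `ascFactorial · #{σ | c = d ∘ σ}`; then
`∑_σ ∑_{c, d = c ∘ σ⁻¹} ∏ V i (c i) conj (V i (d i)) = ∑_σ ∏_i gram V i (σ i)` (or with `σ⁻¹`). -/
def S_GRAM : Prop := ∀ ν : Measure ℂ, Gs ν → ∀ (ι : Type) [Fintype ι] [DecidableEq ι] (r j : ℕ) (V : ι → Fin r → ℂ),
  Integrable (fun z => rho z ^ j * ‖∏ i, lin (V i) z‖ ^ 2) (G ν r) ∧
  (((∫ z, rho z ^ j * ‖∏ i, lin (V i) z‖ ^ 2 ∂(G ν r)) : ℝ) : ℂ) =
    ((Fintype.card ι + r).ascFactorial j : ℂ) * (gram V).permanent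

/-- JEN (30 min, Deps: GAU, GRAM). Let `p = ∏_i lin (V i)`, `x = ‖p‖²`, `u = per(gram V) = E x ≥ 0`, `s = u (r-1)!/(m+r-1)!`,
`t = s ρ^m`. Pointwise `k t^(k-1) x - (k-1) t^k ≤ x^k` (for `x, t ≥ 0`). Integrate: `E x^k` = GRAM for `Fin k × Fin m`, `j = 0`;
`E ρ^{m(k-1)} x = (m+r).ascFactorial (m(k-1)) u = (km+r-1)!/(m+r-1)! u`; `E ρ^{mk} = r.ascFactorial (mk) = (km+r-1)!/(r-1)!` (GRAM
for an empty `ι`). So `E x^k ≥ (km+r-1)!/(r-1)! (k s^(k-1) s - (k-1) s^k)`. -/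
def S_JEN : Prop := ∀ (r m k : ℕ) (V : Fin m → Fin r → ℂ), 1 ≤ r → 1 ≤ k →
  ((k * m + r - 1)! : ℝ) * ((r - 1)! : ℝ) ^ (k - 1) * (gram V).permanent.re ^ k ≤
    ((m + r - 1)! : ℝ) ^ k * (gram (fun p : Fin k × Fin m => V p.2)).permanent.re

/-- HAD (30 min, no Deps). For `c : ι → Fin r`, `d : ι → Fin s` put `T(c,d) = ∏_i a i (c i) b i (d i)`,
`S(c,d) = ∑_σ T(c∘σ, d∘σ)`, `U(c,d) = ∑_{σ,τ} T(c∘σ, d∘τ) = ∑_ρ S(c∘ρ, d)`. Then `∑ |S|² = N! per(had a b)`,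
`∑ |U|² = (N! per(gram a)) (N! per(gram b))`, and `∑ |U|² ≤ N! ∑_ρ ∑ |S(c∘ρ,d)|² = N!² ∑ |S|²` (Cauchy-Schwarz). -/
def S_HAD : Prop := ∀ (ι : Type) [Fintype ι] [DecidableEq ι] (r s : ℕ) (a : ι → Fin r → ℂ) (b : ι → Fin s → ℂ),
  (gram a).permanent.im = 0 ∧ 0 ≤ (gram a).permanent.re ∧ (had a b).permanent.im = 0 ∧
  (gram a).permanent.re * (gram b).permanent.re ≤ ((Fintype.card ι)! : ℝ) * (had a b).permanent.re

/-- GRM (30 min, no Deps). Spectral theorem, or `M = Bᴴ B` and coordinates in an orthonormal basis of the range of `B`. -/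
def S_GRM : Prop := ∀ (m r : ℕ) (M : Matrix (Fin m) (Fin m) ℂ), M.PosSemidef → M.rank ≤ r →
  ∃ V : Fin m → Fin r → ℂ, M = gram V

/-- ARI (30 min, no Deps). Induction on `k`: the quotient of the two sides changes by the factor
`∏_{i<m} (k m + r + i)/((k+1)(r+i))`, and `((k m + x)/(k+1))^(k+1) ≥ m^k x` (Bernoulli / weighted AM-GM), so the `(k+1)`-th
power of the factor is `≥ (m^m / ∏ (r+i))^k ≥ 1`. Second part: pair `i` with `m-1-i`: `(r+i)(r+m-1-i) ≤ m²`. -/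
def S_ARI : Prop := (∀ r m k : ℕ, 1 ≤ r → 1 ≤ k → r.ascFactorial m ≤ m ^ m →
    k ! ^ m * (m + r - 1)! ^ k ≤ (k * m + r - 1)! * (r - 1)! ^ (k - 1)) ∧
  ∀ r m : ℕ, 1 ≤ r → 2 * r ≤ m + 1 → r.ascFactorial m ≤ m ^ m

/-- ASY (30 min, no Deps). `(nm)! ≥ (nm/e)^(nm)`, `n! ≤ e n (n/e)^n`, `(n+r-1)! ≤ n! (n+r)^(r-1)`; the quotient of the right side
and the left side is at least `(nm)! / ((n+r-1)!^m (m+s-1)!^n) ≥ e^{nm} / ((e n (n+r)^r)^m (e m (m+s)^s)^n)`, and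
`nm ≥ m log(e n (n+r)^r) + n log(e m (m+s)^s)` for large `n, m`. -/
def S_ASY : Prop := ∀ r s : ℕ, 1 ≤ r → 1 ≤ s → ∃ n₀ : ℕ, ∀ n m : ℕ, n₀ ≤ n → n₀ ≤ m → cond n m r s

/-- PATE (20 min, Deps: GRM, JEN, HAD, ARI). Take `r = max 1 (rank M)`; `k = 0` and `m = 0` are trivial. -/
def S_PATE : Prop := ∀ (k m : ℕ) (M : Matrix (Fin m) (Fin m) ℂ), M.PosSemidef → 2 * M.rank ≤ m + 1 →
  (k ! : ℂ) ^ m * M.permanent ^ k ≤
    (Matrix.kronecker (Matrix.of fun _ _ : Fin k => (1 : ℂ)) M).permanent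

/-- MAIN (30 min, Deps: GRM, JEN, HAD). `A = gram a`, `B = gram b`; `A ⊗ B = had a' b'` with `a'(i,j) = a i`, `b'(i,j) = b j`;
`per(gram a')`: reindex `Fin n × Fin m ≃ Fin m × Fin n` and JEN. -/
def S_MAIN : Prop := ∀ (n m r s : ℕ) (A : Matrix (Fin n) (Fin n) ℂ) (B : Matrix (Fin m) (Fin m) ℂ),
  1 ≤ n → 1 ≤ m → 1 ≤ r → 1 ≤ s → A.PosSemidef → B.PosSemidef → A.rank ≤ r → B.rank ≤ s → cond n m r s →
  A.permanent ^ m * B.permanent ^ n ≤ (Matrix.kronecker A B).permanent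

end Pool.Agent.T2H42.PJ
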